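import Pool.Agent.Lib.MP_eb34a4_co.DP.Jung

/-! Weights and centres attached to the cells cut out by unit spheres. -/

namespace Pool.Agent.Lib.MP_eb34a4_co.DP

open Set Metric Filter Topology Module

variable {E : Type} [NormedAddCommGroup E] [NormedSpace ℝ E] [FiniteDimensional ℝ E]

theorem pieces {κ : Type} (c : E → κ) (hc : ∀ x y : E, ‖x - y‖ = 1 → c x ≠ c y)
    (K : Set E) (hK : IsCompact K) (ε : ℝ) (hε : 0 < ε) :
    ∃ (L : κ → E → ℝ) (g : κ → E → E), (∀ j, Continuous (L j)) ∧ (∀ j x, 0 ≤ L j x) ∧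
      (∀ j, (range (g j)).Finite) ∧ (∀ j x, 0 < L j x → ∀ᶠ x' in 𝓝 x, g j x' = g j x) ∧
      (∀ j x, 0 < L j x → ‖g j x - x‖ ≤ (1 + ε) * ((finrank ℝ E : ℝ) / (finrank ℝ E + 1))) ∧
      (∀ x ∈ K, 0 < L (c x) x) ∧ ∀ j x, 0 < L j x → ∃ y ∈ K, c y = j := by
  classical
  have e0 : 0 < min ε 1 := lt_min hε one_pos
  have hX : ∀ j, ∃ X : Finset E, (∀ b ∈ X, b ∈ K ∧ c b = j) ∧
      ∀ x ∈ K, c x = j → ∃ b ∈ X, ‖x - b‖ < min ε 1 := fun j => by
    obtain ⟨t, h1, h2, h3⟩ := finite_approx_of_totallyBounded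
      (hK.totallyBounded.subset (inter_subset_left (t := {x | c x = j}))) _ e0
    refine ⟨h2.toFinset, fun b hb => h1 (h2.mem_toFinset.1 hb), fun x hx hj => ?_⟩
    obtain ⟨b, hb, h4⟩ := mem_iUnion₂.1 (h3 ⟨hx, hj⟩)
    exact ⟨b, h2.mem_toFinset.2 hb, mem_ball_iff_norm.1 h4⟩
  choose X X1 X2 using hX
  obtain ⟨L, hL⟩ : ∃ L : κ → E → ℝ, L = fun j x =>
      (∏ b ∈ X j, |‖x - b‖ - 1|) * ∑ b ∈ X j, max 0 (min ε 1 - ‖x - b‖) := ⟨_, rfl⟩
  have L1 : ∀ j x, 0 < L j x ↔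
      (∀ b ∈ X j, ‖x - b‖ ≠ 1) ∧ ∃ b ∈ X j, ‖x - b‖ < min ε 1 := fun j x => by
    rw [hL]
    refine ⟨fun h => ?_, fun ⟨h1, b, hb, h2⟩ => mul_pos
      (Finset.prod_pos fun a ha => abs_pos.2 (sub_ne_zero.2 (h1 a ha)))
      (Finset.sum_pos' (fun _ _ => le_max_left _ _) ⟨b, hb, lt_max_of_lt_right (sub_pos.2 h2)⟩)⟩
    obtain ⟨h1, h2⟩ := mul_ne_zero_iff.1 h.ne'
    obtain ⟨b, hb, h3⟩ := Finset.exists_ne_zero_of_sum_ne_zero h2
    exact ⟨fun a ha => sub_ne_zero.1 (abs_ne_zero.1 (Finset.prod_ne_zero_iff.1 h1 a ha)), b, hb,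
      lt_of_not_ge fun h4 => h3 (max_eq_left (sub_nonpos.2 h4))⟩
  have hG : ∀ j (s : Finset E), ∃ z : E,
      ∀ x ∈ {x | 0 < L j x ∧ (X j).filter (fun b => ‖x - b‖ < 1) = s},
        ‖z - x‖ ≤ (1 + ε) * ((finrank ℝ E : ℝ) / (finrank ℝ E + 1)) := fun j s =>
    jung _ _ (by positivity) fun x hx y hy => by
      obtain ⟨b, hb, h1⟩ := ((L1 j x).1 hx.1).2
      have h2 : b ∈ (X j).filter fun b => ‖y - b‖ < 1 := by
        rw [hy.2, ← hx.2]
        exact Finset.mem_filter.2 ⟨hb, h1.trans_le (min_le_right _ _)⟩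
      have h3 := norm_sub_le (x - b) (y - b)
      rw [sub_sub_sub_cancel_right] at h3
      linarith [(Finset.mem_filter.1 h2).2, min_le_left ε 1]
  choose G hG using hG
  refine ⟨L, fun j x => G j ((X j).filter fun b => ‖x - b‖ < 1), fun j => ?_, fun j x => ?_,
    fun j => ?_, fun j x hx => ?_, fun j x hx => hG j _ x ⟨hx, rfl⟩, fun x hx => ?_,
    fun j x hx => ?_⟩
  · rw [hL]
    fun_prop
  · rw [hL]
    exact mul_nonneg (Finset.prod_nonneg fun _ _ => abs_nonneg _)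
      (Finset.sum_nonneg fun _ _ => le_max_left _ _)
  · refine (((X j).powerset.finite_toSet).image (G j)).subset ?_
    rintro _ ⟨x, rfl⟩
    exact ⟨_, Finset.mem_powerset.2 (Finset.filter_subset _ _), rfl⟩
  · have h1 : ∀ b ∈ X j, ∀ᶠ y in 𝓝 x, ‖y - b‖ < 1 ↔ ‖x - b‖ < 1 := fun b hb => by
      have h2 : ContinuousAt (fun y => ‖y - b‖) x := by fun_prop
      rcases (((L1 j x).1 hx).1 b hb).lt_or_gt with h | h
      · exact (h2.eventually_lt continuousAt_const h).mono fun y hy => iff_of_true hy h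
      · exact (continuousAt_const.eventually_lt h2 h).mono fun y hy =>
          iff_of_false (not_lt.2 hy.le) (not_lt.2 h.le)
    exact ((eventually_all_finset _).2 h1).mono fun y hy =>
      congrArg (G j) (Finset.filter_congr hy)
  · exact (L1 _ _).2 ⟨fun b hb h => hc x b h (X1 _ b hb).2.symm, X2 _ x hx rfl⟩
  · obtain ⟨b, hb, -⟩ := ((L1 j x).1 hx).2
    exact ⟨b, X1 j b hb⟩

end Pool.Agent.Lib.MP_eb34a4_co.DP
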