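import Mathlib

/-! A generic limit of translates of a colouring. -/

namespace Pool.Agent.Lib.MP_eb34a4_co.DP

open Set Metric Filter Topology Module

/-- The filter of the sets with dense interior. -/
def ultraF (E : Type) [TopologicalSpace E] : Filter E where
  sets := {s | Dense (interior s)}
  univ_sets := by simp
  sets_of_superset := fun h h' => Dense.mono (interior_mono h') h
  inter_sets := fun h h' => by
    rw [mem_ofPred_eq, interior_inter]
    exact Dense.inter_of_isOpen_left h h' isOpen_interior

theorem ultra {E : Type} [NormedAddCommGroup E] {κ : Type} [Finite κ] (c : E → κ)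
    (hc : ∀ x y : E, ‖x - y‖ = 1 → c x ≠ c y) :
    ∃ c' : E → κ, (∀ x y : E, ‖x - y‖ = 1 → c' x ≠ c' y) ∧
      ∀ x, x ∈ closure (interior (closure (c ⁻¹' {c' x}))) := by
  have hne : (𝓝 (0 : E) ⊓ ultraF E).NeBot := by
    refine inf_neBot_iff.2 fun s hs t ht => ?_
    obtain ⟨z, h1, h2⟩ := Dense.inter_nhds_nonempty (show Dense (interior t) from ht) hs
    exact ⟨z, h2, interior_subset h1⟩
  obtain ⟨U, hU⟩ := Ultrafilter.exists_le (𝓝 (0 : E) ⊓ ultraF E)
  have ex : ∀ x : E, ∃ t, ∀ᶠ v in (U : Filter E), c (x + v) = t := fun x => by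
    obtain ⟨t, ht⟩ := Ultrafilter.eq_pure_of_finite (U.map fun v => c (x + v))
    refine ⟨t, ?_⟩
    have h1 : {t} ∈ U.map fun v => c (x + v) := by
      rw [ht]
      exact rfl
    exact h1
  choose c' hc' using ex
  refine ⟨c', fun x y hxy e => ?_, fun x => ?_⟩
  · obtain ⟨v, h1, h2⟩ := ((hc' x).and (hc' y)).exists
    exact hc (x + v) (y + v) (by rwa [add_sub_add_right_eq_sub]) (by rw [h1, h2, e])
  · have h1 : (fun v => x + v) ⁻¹' (frontier (closure (c ⁻¹' {c' x})))ᶜ ∈ ultraF E := by
      change Dense (interior _)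
      rw [(isClosed_frontier.isOpen_compl.preimage (continuous_const_add x)).interior_eq]
      exact (interior_eq_empty_iff_dense_compl.1 (interior_frontier isClosed_closure)).preimage
        (isOpenMap_add_left x)
    have h2 : Tendsto (fun v => x + v) (U : Filter E) (𝓝 x) := by
      have h3 : Tendsto (fun v => x + v) (𝓝 0) (𝓝 (x + 0)) := (continuous_const_add x).tendsto 0
      rw [add_zero] at h3
      exact h3.mono_left (hU.trans inf_le_left)
    refine mem_closure_of_tendsto h2 ?_
    filter_upwards [hc' x, (hU.trans inf_le_right) h1] with v h4 h5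
    by_contra h6
    exact h5 ⟨subset_closure (subset_closure h4), h6⟩

end Pool.Agent.Lib.MP_eb34a4_co.DP
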