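import Pool.Agent.Lib.MP_eb34a4_co.DP.Nerve
import Pool.Agent.Lib.MP_eb34a4_co.DP.Pieces
import Pool.Agent.Lib.MP_eb34a4_co.DP.Ultra

/-! With one colour more than the dimension, every colour is somewhere dense in every unit ball. -/

namespace Pool.Agent.Lib.MP_eb34a4_co.DP

open Set Metric Filter Topology Module

variable {E : Type} [NormedAddCommGroup E] [NormedSpace ℝ E] [FiniteDimensional ℝ E]

theorem ball_radius_lt (d : ℝ) (hd : 0 ≤ d) : (1 + 1 / (2 * d + 2)) * (d / (d + 1)) < 1 := by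
  have h1 : 0 < d + 1 := by linarith
  have h2 : 0 < 2 * d + 2 := by linarith
  have e : (1 + 1 / (2 * d + 2)) * (d / (d + 1)) = ((2 * d + 3) * d) / ((2 * d + 2) * (d + 1)) := by
    field_simp
    ring
  rw [e, div_lt_one (mul_pos h2 h1)]
  nlinarith

theorem ball_meets {κ : Type} [Fintype κ] (hκ : Fintype.card κ = finrank ℝ E + 1) (c : E → κ)
    (hc : ∀ x y : E, ‖x - y‖ = 1 → c x ≠ c y) (y : E) (t : κ) :
    ∃ x ∈ interior (closure (c ⁻¹' {t})), ‖x - y‖ < 1 := by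
  haveI : ProperSpace E := FiniteDimensional.proper_real E
  obtain ⟨c', hc', hcl⟩ := ultra c hc
  have hd : (0 : ℝ) ≤ (finrank ℝ E : ℝ) := Nat.cast_nonneg _
  have hε : (0 : ℝ) < 1 / (2 * (finrank ℝ E : ℝ) + 2) := by positivity
  obtain ⟨r, hr⟩ : ∃ r : ℝ, r = (1 + 1 / (2 * (finrank ℝ E : ℝ) + 2)) *
      ((finrank ℝ E : ℝ) / (finrank ℝ E + 1)) := ⟨_, rfl⟩
  have hr1 : r < 1 := by rw [hr]; exact ball_radius_lt _ hd
  have hr0 : 0 ≤ r := by rw [hr]; positivity
  obtain ⟨L, g, hL, hL0, hfin, hloc, hdist, hpos, hex⟩ :=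
    pieces c' hc' (closedBall y ((r + 1) / 2)) (isCompact_closedBall _ _) _ hε
  obtain ⟨x, -, T, hT, hTx⟩ := nerve y ((r + 1) / 2) r hr0 (by linarith) L g
    (fun j => (hL j).continuousOn) (fun j x _ => hL0 j x)
    (fun j => (hfin j).subset (image_subset_range _ _))
    (fun j x _ h => (hloc j x h).filter_mono nhdsWithin_le_nhds)
    (fun j x _ h => by rw [hr]; exact hdist j x h)
    (fun x hx => ⟨c' x, hpos x hx⟩)
  have hTu : T = Finset.univ := Finset.eq_univ_of_card T (by rw [hT, hκ])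
  obtain ⟨z, hz, hzt⟩ := hex t x (hTx t (by rw [hTu]; exact Finset.mem_univ t))
  have hz1 : z ∈ ball y 1 := by
    rw [mem_closedBall] at hz
    rw [mem_ball]
    linarith
  have h1 := hcl z
  rw [hzt] at h1
  obtain ⟨w, hw1, hw2⟩ := mem_closure_iff.1 h1 (ball y 1) isOpen_ball hz1
  exact ⟨w, hw2, by rwa [mem_ball, dist_eq_norm] at hw1⟩

end Pool.Agent.Lib.MP_eb34a4_co.DP
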