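import Pool.Agent.Lib.MP_eb34a4_co.DP.Ext

/-! A system of independent gradients, by one exchange step. -/

namespace Pool.Agent.Lib.MP_eb34a4_co.DP

open Set Metric Filter Topology Module

variable {E : Type} [NormedAddCommGroup E] [NormedSpace ℝ E] {ι : Type}

/-- Unit vectors with independent gradients through which the points of `W` see the sets `D i`
with `i ∈ T`. -/
def SysGood (D : ι → Set E) (W : Set E) (T : Finset ι) (u : ι → E) (g : ι → E →L[ℝ] ℝ) : Prop :=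
  (∀ i ∈ T, ‖u i‖ = 1 ∧ HasFDerivAt (fun x : E => ‖x‖) (g i) (u i) ∧ ∀ y ∈ W, y - u i ∈ D i) ∧
    LinearIndepOn ℝ g T

theorem sys_mono {D : ι → Set E} {W W' : Set E} {T T' : Finset ι} {u : ι → E}
    {g : ι → E →L[ℝ] ℝ} (h : SysGood D W T u g) (hW : W' ⊆ W) (hT : T' ⊆ T) :
    SysGood D W' T' u g :=
  ⟨fun i hi => ⟨(h.1 i (hT hi)).1, (h.1 i (hT hi)).2.1, fun y hy => (h.1 i (hT hi)).2.2 y (hW hy)⟩,
    h.2.mono (Finset.coe_subset.2 hT)⟩

theorem sys_add [DecidableEq ι] {D : ι → Set E} (hD : ∀ t, IsOpen (D t)) {W : Set E}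
    (oW : IsOpen W) {T : Finset ι} {u : ι → E} {g : ι → E →L[ℝ] ℝ} (h : SysGood D W T u g)
    {s : ι} (hs : s ∉ T) {p w : E} {f : E →L[ℝ] ℝ} (hp : p ∈ W) (hw : ‖w‖ = 1)
    (hf : HasFDerivAt (fun x : E => ‖x‖) f w) (hpw : p - w ∈ D s)
    (hn : f ∉ Submodule.span ℝ (g '' T)) :
    ∃ W', IsOpen W' ∧ W'.Nonempty ∧ W' ⊆ W ∧
      SysGood D W' (insert s T) (Function.update u s w) (Function.update g s f) := by
  have e : EqOn g (Function.update g s f) T := fun i hi =>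
    (Function.update_of_ne (ne_of_mem_of_not_mem (Finset.mem_coe.1 hi) hs) _ _).symm
  refine ⟨W ∩ (fun y => y - w) ⁻¹' D s, oW.inter ((hD s).preimage (by fun_prop)), ⟨p, hp, hpw⟩,
    inter_subset_left, fun i hi => ?_, ?_⟩
  · rcases Finset.mem_insert.1 hi with rfl | hi
    · rw [Function.update_self, Function.update_self]
      exact ⟨hw, hf, fun y hy => hy.2⟩
    · have e := ne_of_mem_of_not_mem hi hs
      rw [Function.update_of_ne e, Function.update_of_ne e]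
      exact ⟨(h.1 i hi).1, (h.1 i hi).2.1, fun y hy => (h.1 i hi).2.2 y hy.1⟩
  · rw [Finset.coe_insert]
    refine (h.2.congr e).insert ?_
    rwa [Function.update_self, ← e.image_eq]

theorem sys_span {T : Finset ι} {g : ι → E →L[ℝ] ℝ} {v : E} (hv : ∀ i ∈ T, g i v = 0)
    {f : E →L[ℝ] ℝ} (hf : f ∈ Submodule.span ℝ (g '' T)) : f v = 0 := by
  induction hf using Submodule.span_induction with
  | mem x hx =>
    obtain ⟨i, hi, rfl⟩ := hx
    exact hv i hi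
  | zero => rfl
  | add x y _ _ hx hy => rw [add_apply, hx, hy, add_zero]
  | smul a x _ hx => rw [smul_apply, hx, smul_zero]

theorem sys_swap [DecidableEq ι] {T : Finset ι} {g : ι → E →L[ℝ] ℝ} (hg : LinearIndepOn ℝ g T)
    {f : E →L[ℝ] ℝ} (hf : f ∈ Submodule.span ℝ (g '' T)) (f0 : f ≠ 0) :
    ∃ i ∈ T, f ∉ Submodule.span ℝ (g '' T.erase i) := by
  obtain ⟨l, hl, e⟩ := (Finsupp.mem_span_image_iff_linearCombination ℝ).1 hf
  obtain ⟨i, hi⟩ : l.support.Nonempty := Finsupp.support_nonempty_iff.2 fun h => f0 (by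
    rw [← e, h, map_zero])
  refine ⟨i, hl hi, fun h => ?_⟩
  obtain ⟨l', hl', e'⟩ := (Finsupp.mem_span_image_iff_linearCombination ℝ).1 h
  have := linearIndepOn_iffₛ.1 hg l hl l'
    (Finsupp.supported_mono (Finset.coe_subset.2 (T.erase_subset i)) hl') (e.trans e'.symm)
  rw [this] at hi
  exact Finset.notMem_erase i T (hl' hi)

variable [FiniteDimensional ℝ E]

theorem sys_dir {T : Finset ι} (hT : T.card < finrank ℝ E) (g : ι → E →L[ℝ] ℝ) :
    ∃ v : E, v ≠ 0 ∧ ∀ i ∈ T, g i v = 0 := by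
  have h := LinearMap.ker_ne_bot_of_finrank_lt
    (f := (LinearMap.pi fun i : T => (g i : E →ₗ[ℝ] ℝ) : E →ₗ[ℝ] T → ℝ)) (by simpa using hT)
  obtain ⟨v, hv, v0⟩ := Submodule.exists_mem_ne_zero_of_ne_bot h
  exact ⟨v, v0, fun i hi => congrFun (LinearMap.mem_ker.1 hv) ⟨i, hi⟩⟩

omit [FiniteDimensional ℝ E] in
theorem sys_seg {W : Set E} (oW : IsOpen W) {y : E} (hy : y ∈ W) (v : E) :
    ∃ e : ℝ, 0 < e ∧ e < 1 ∧ segment ℝ (y + e • v) (y - e • v) ⊆ W := by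
  obtain ⟨r, r0, hr⟩ := Metric.isOpen_iff.1 oW y hy
  have n0 := norm_nonneg v
  have h : ‖(r / (r + ‖v‖ + 1)) • v‖ < r := by
    rw [norm_smul, Real.norm_of_nonneg (by positivity), div_mul_eq_mul_div,
      div_lt_iff₀ (by positivity)]
    nlinarith
  refine ⟨r / (r + ‖v‖ + 1), by positivity, (div_lt_one (by positivity)).2 (by linarith),
    ((convex_ball y r).segment_subset ?_ ?_).trans hr⟩
  · rwa [mem_ball, dist_self_add_left]
  · rwa [mem_ball, dist_self_sub_left]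

theorem sys_pair {D : ι → Set E} (hD : ∀ t, IsOpen (D t))
    (h2 : ∀ a b : E, a ≠ b → ∀ s t, s ≠ t → ∃ j, (j = s ∨ j = t) ∧
      ∃ x ∈ D j, ‖x - a‖ < 1 ∧ 1 < ‖x - b‖)
    {W : Set E} (oW : IsOpen W) (hne : W.Nonempty) {v : E} (v0 : v ≠ 0) {s t : ι} (hst : s ≠ t) :
    ∃ j, (j = s ∨ j = t) ∧ ∃ p ∈ W, ∃ (w : E) (f : E →L[ℝ] ℝ), ‖w‖ = 1 ∧
      HasFDerivAt (fun x : E => ‖x‖) f w ∧ p - w ∈ D j ∧ f v ≠ 0 := by
  obtain ⟨y, hy⟩ := hne
  obtain ⟨e, e0, -, he⟩ := sys_seg oW hy v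
  have e1 : y - e • v - (y + e • v) = (-2 * e) • v := by module
  obtain ⟨j, hj, x, hx, ha, hb⟩ := h2 (y + e • v) (y - e • v) (fun h => by
    rw [h, sub_self] at e1
    exact smul_ne_zero (by linarith) v0 e1.symm) s t hst
  obtain ⟨p, hp, w, f, h1, h3, h4, h5⟩ := ext_grad _ (hD j) hx ha hb
  refine ⟨j, hj, p, he hp, w, f, h1, h3, h4, fun h => h5 ?_⟩
  rw [e1, map_smul, h, smul_zero]

theorem sys_step [Fintype ι] (hι : Fintype.card ι = finrank ℝ E) {D : ι → Set E}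
    (hD : ∀ t, IsOpen (D t))
    (h2 : ∀ a b : E, a ≠ b → ∀ s t, s ≠ t → ∃ j, (j = s ∨ j = t) ∧
      ∃ x ∈ D j, ‖x - a‖ < 1 ∧ 1 < ‖x - b‖)
    {W : Set E} (oW : IsOpen W) (hne : W.Nonempty)
    (hsee : ∀ y ∈ W, ∀ t, ∃ x ∈ D t, ‖x - y‖ = 1) {T : Finset ι} {u : ι → E}
    {g : ι → E →L[ℝ] ℝ} (h : SysGood D W T u g) (hT : T.card < finrank ℝ E) :
    ∃ W', IsOpen W' ∧ W'.Nonempty ∧ W' ⊆ W ∧ ∃ (T' : Finset ι) (u' : ι → E)
      (g' : ι → E →L[ℝ] ℝ), T'.card = T.card + 1 ∧ SysGood D W' T' u' g' := by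
  classical
  obtain ⟨v, v0, hv⟩ := sys_dir hT g
  obtain ⟨s, hs⟩ : ∃ s, s ∉ T := by
    by_contra hn
    rw [Finset.eq_univ_iff_forall.2 fun i => not_not.1 fun h => hn ⟨i, h⟩, Finset.card_univ] at hT
    omega
  obtain ⟨y, hy⟩ := hne
  obtain ⟨x, hx, hxy⟩ := hsee y hy s
  obtain ⟨e, e0, e1, he⟩ := sys_seg oW hy (x - y)
  obtain ⟨p, hp, w, f, h1, h3, h4, h5⟩ := ext_grad _ (hD s) hx
    (a := y + e • (x - y)) (b := y - e • (x - y))
    (by
      rw [show x - (y + e • (x - y)) = (1 - e) • (x - y) by module, norm_smul, hxy,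
        Real.norm_of_nonneg (by linarith)]
      linarith)
    (by
      rw [show x - (y - e • (x - y)) = (1 + e) • (x - y) by module, norm_smul, hxy,
        Real.norm_of_nonneg (by linarith)]
      linarith)
  by_cases hf : f ∈ Submodule.span ℝ (g '' T)
  swap
  · obtain ⟨W', a1, a2, a3, a4⟩ := sys_add hD oW h hs (he hp) h1 h3 h4 hf
    exact ⟨W', a1, a2, a3, _, _, _, Finset.card_insert_of_notMem hs, a4⟩
  obtain ⟨i, hi, hfi⟩ := sys_swap h.2 hf fun f0 => h5 (by rw [f0]; rfl)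
  have hs' : s ∉ T.erase i := fun h => hs (T.erase_subset i h)
  have hsi := (ne_of_mem_of_not_mem hi hs).symm
  obtain ⟨W', a1, a2, a3, a4⟩ :=
    sys_add hD oW (sys_mono h Subset.rfl (T.erase_subset i)) hs' (he hp) h1 h3 h4 hfi
  obtain ⟨j, hj, p', hp', w', f', b1, b2, b3, b4⟩ := sys_pair hD h2 a1 a2 v0 hsi
  rcases hj with rfl | rfl
  · obtain ⟨W'', c1, c2, c3, c4⟩ := sys_add hD a1 (sys_mono h a3 (Finset.Subset.refl _)) hs hp'
      b1 b2 b3 fun h => b4 (sys_span hv h)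
    exact ⟨W'', c1, c2, c3.trans a3, _, _, _, Finset.card_insert_of_notMem hs, c4⟩
  · have hj : j ∉ insert s (T.erase j) := fun h =>
      (Finset.mem_insert.1 h).elim hsi.symm (Finset.notMem_erase j T)
    obtain ⟨W'', c1, c2, c3, c4⟩ := sys_add hD a1 a4 hj hp' b1 b2 b3 fun h => b4 (sys_span
      (fun l hl => by
        rcases Finset.mem_insert.1 hl with rfl | hl
        · rw [Function.update_self]
          exact sys_span hv hf
        · rw [Function.update_of_ne (ne_of_mem_of_not_mem hl hs')]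
          exact hv l (T.erase_subset j hl)) h)
    refine ⟨W'', c1, c2, c3.trans a3, _, _, _, ?_, c4⟩
    rw [Finset.card_insert_of_notMem hj, Finset.card_insert_of_notMem hs',
      Finset.card_erase_add_one hi]

theorem system {ι : Type} [Fintype ι] (hι : Fintype.card ι = finrank ℝ E) (D : ι → Set E)
    (hD : ∀ t, IsOpen (D t))
    (h2 : ∀ a b : E, a ≠ b → ∀ s t, s ≠ t → ∃ j, (j = s ∨ j = t) ∧
      ∃ x ∈ D j, ‖x - a‖ < 1 ∧ 1 < ‖x - b‖)
    (V : Set E) (hV : IsOpen V) (hne : V.Nonempty)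
    (hsee : ∀ y ∈ V, ∀ t, ∃ x ∈ D t, ‖x - y‖ = 1) :
    ∃ y ∈ V, ∃ (u : ι → E) (g : ι → E →L[ℝ] ℝ), (∀ i, ‖u i‖ = 1) ∧
      (∀ i, HasFDerivAt (fun x : E => ‖x‖) (g i) (u i)) ∧ LinearIndependent ℝ g ∧
        ∀ i, y - u i ∈ D i := by
  have key : ∀ n, n ≤ finrank ℝ E → ∃ W, IsOpen W ∧ W.Nonempty ∧ W ⊆ V ∧ ∃ (T : Finset ι)
      (u : ι → E) (g : ι → E →L[ℝ] ℝ), T.card = n ∧ SysGood D W T u g := fun n => by
    induction n with
    | zero => exact fun _ => ⟨V, hV, hne, Subset.rfl, ∅, 0, 0, rfl, by simp, by simp⟩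
    | succ n ih =>
      intro hn
      obtain ⟨W, a1, a2, a3, T, u, g, a4, a5⟩ := ih (by omega)
      obtain ⟨W', b1, b2, b3, T', u', g', b4, b5⟩ :=
        sys_step hι hD h2 a1 a2 (fun y hy => hsee y (a3 hy)) a5 (by omega)
      exact ⟨W', b1, b2, b3.trans a3, T', u', g', by omega, b5⟩
  obtain ⟨W, -, ⟨y, hy⟩, a3, T, u, g, a4, a5, a6⟩ := key _ le_rfl
  have e : T = Finset.univ := Finset.eq_univ_of_card T (a4.trans hι.symm)
  subst e
  rw [Finset.coe_univ, linearIndepOn_univ_iff] at a6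
  exact ⟨y, a3 hy, u, g, fun i => (a5 i (Finset.mem_univ i)).1,
    fun i => (a5 i (Finset.mem_univ i)).2.1, a6, fun i => (a5 i (Finset.mem_univ i)).2.2 y hy⟩

end Pool.Agent.Lib.MP_eb34a4_co.DP
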