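import Mathlib

/-! Sums of two unit vectors. -/

namespace Pool.Agent.Lib.MP_eb34a4_co.DP

open Set Metric Filter Topology Module

variable {E : Type} [NormedAddCommGroup E] [NormedSpace ℝ E] [FiniteDimensional ℝ E]

theorem two_units (hd : 2 ≤ finrank ℝ E) (h : E) (hh : ‖h‖ ≤ 2) :
    ∃ u w : E, ‖u‖ = 1 ∧ ‖w‖ = 1 ∧ h = u + w := by
  have hr : 1 < Module.rank ℝ E := by
    rw [← finrank_eq_rank]
    exact_mod_cast hd
  have : Nontrivial E := nontrivial_of_finrank_pos (R := ℝ) (by omega)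
  obtain ⟨e, he, eh⟩ : ∃ e : E, ‖e‖ = 1 ∧ h = ‖h‖ • e := by
    by_cases h0 : h = 0
    · obtain ⟨e, he⟩ := exists_norm_eq E zero_le_one
      exact ⟨e, he, by simp [h0]⟩
    · have := norm_ne_zero_iff.2 h0
      exact ⟨‖h‖⁻¹ • h, norm_smul_inv_norm h0, by rw [smul_smul, mul_inv_cancel₀ this, one_smul]⟩
  have n0 := norm_nonneg h
  have e1 : ‖h - e‖ ≤ 1 := by
    rw [show h - e = (‖h‖ - 1) • e by rw [sub_smul, ← eh, one_smul], norm_smul, he, mul_one]
    exact abs_le.2 ⟨by linarith, by linarith⟩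
  have e2 : 1 ≤ ‖h - -e‖ := by
    rw [show h - -e = (‖h‖ + 1) • e by rw [add_smul, ← eh, one_smul, sub_neg_eq_add], norm_smul,
      he, mul_one]
    exact le_abs.2 (Or.inl (by linarith))
  obtain ⟨u, hu, hu'⟩ := (isPreconnected_sphere hr (0 : E) 1).intermediate_value
    (a := e) (b := -e) (by simpa using he) (by simpa using he) (f := fun x => ‖h - x‖)
    (by fun_prop) ⟨e1, e2⟩
  exact ⟨u, h - u, by simpa using hu, hu', by abel⟩

end Pool.Agent.Lib.MP_eb34a4_co.DP
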