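import Pool.Agent.Lib.MP_eb34a4_co.DP.Key
import Pool.Agent.Lib.MP_eb34a4_co.DP.Sys
import Pool.Agent.Lib.MP_eb34a4_co.DP.Tri

/-! If a point sees all colours then all classes are dense. -/

namespace Pool.Agent.Lib.MP_eb34a4_co.DP

open Set Metric Filter Topology Module

variable {E : Type} [NormedAddCommGroup E] [NormedSpace ℝ E] [FiniteDimensional ℝ E]

theorem all_dense {κ : Type} [Fintype κ] (hκ : Fintype.card κ = finrank ℝ E + 1)
    (hd : 2 ≤ finrank ℝ E) (c : E → κ) (hc : ∀ x y : E, ‖x - y‖ = 1 → c x ≠ c y)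
    (h2 : ∀ a b : E, a ≠ b → ∀ s t, s ≠ t → ∃ j, (j = s ∨ j = t) ∧
      ∃ x ∈ interior (closure (c ⁻¹' {j})), ‖x - a‖ < 1 ∧ 1 < ‖x - b‖)
    (hy : ∃ y, ∀ t, ∃ x ∈ interior (closure (c ⁻¹' {t})), ‖x - y‖ = 1) (t : κ) :
    Dense (c ⁻¹' {t}) := by
  classical
  obtain ⟨Y, hY⟩ : ∃ Y : Set E, ∀ y, y ∈ Y ↔
      ∀ t, ∃ x ∈ interior (closure (c ⁻¹' {t})), ‖x - y‖ = 1 := ⟨setOf _, fun _ => Iff.rfl⟩
  have ho : IsOpen Y := by
    have e : Y = ⋂ t, ⋃ u : {u : E // ‖u‖ = 1},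
        (fun y => y + u.1) ⁻¹' interior (closure (c ⁻¹' {t})) := by
      ext y
      rw [hY, mem_iInter]
      refine forall_congr' fun t => ?_
      rw [mem_iUnion]
      refine ⟨fun ⟨x, h, h'⟩ => ⟨⟨x - y, h'⟩, ?_⟩, fun ⟨u, h⟩ => ⟨_, h, ?_⟩⟩
      · rwa [mem_preimage, add_sub_cancel]
      · rw [add_sub_cancel_left, u.2]
    rw [e]
    exact isOpen_iInter_of_finite fun t => isOpen_iUnion fun u =>
      isOpen_interior.preimage (continuous_id.add continuous_const)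
  have hcl : ∀ t, Y ⊆ closure (c ⁻¹' {t}) := fun t y hyY => by
    refine Metric.mem_closure_iff.2 fun ε hε => ?_
    have hι : Fintype.card {s // s ≠ t} = finrank ℝ E := by simp [hκ]
    obtain ⟨y', hy', u, g, hu, hg, hli, hD⟩ := system hι
      (fun s => interior (closure (c ⁻¹' {s.1}))) (fun _ => isOpen_interior)
      (fun a b hab s s' hs => by
        obtain ⟨j, rfl | rfl, h⟩ := h2 a b hab s.1 s'.1 fun e => hs (Subtype.ext e)
        · exact ⟨s, Or.inl rfl, h⟩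
        · exact ⟨s', Or.inr rfl, h⟩)
      (Y ∩ ball y (ε / 2)) (ho.inter isOpen_ball) ⟨y, hyY, mem_ball_self (half_pos hε)⟩
      fun y' hy' s => (hY y').1 hy'.1 s.1
    obtain ⟨z, hz, hz'⟩ := key hι u g hu hg hli (fun s => c ⁻¹' {s.1}) y'
      (fun s => interior_subset (hD s)) (ε / 2) (half_pos hε)
    refine ⟨z, ?_, ?_⟩
    · by_contra hne
      obtain ⟨a, ha, ha'⟩ := hz' ⟨c z, hne⟩
      exact hc z a ha' ha.symm
    · have h1 := mem_ball.1 hy'.2
      rw [← dist_eq_norm] at hz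
      linarith [dist_triangle_right y z y', dist_comm y y']
  have hstep : ∀ y ∈ Y, ∀ u : E, ‖u‖ = 1 → y + u ∈ Y := fun y hyY u hu =>
    (hY _).2 fun s => ⟨y, interior_maximal (hcl s) ho hyY, by rw [sub_add_cancel_left, norm_neg, hu]⟩
  have hclosed : IsClosed Y := by
    refine isClosed_of_closure_subset fun z hz => ?_
    obtain ⟨y, hyY, h⟩ := Metric.mem_closure_iff.1 hz 2 two_pos
    obtain ⟨u, w, hu, hw, e⟩ := two_units hd (z - y) (by rw [← dist_eq_norm]; exact h.le)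
    rw [eq_add_of_sub_eq' e, ← add_assoc]
    exact hstep _ (hstep y hyY u hu) w hw
  have hu : Y = univ := IsClopen.eq_univ ⟨hclosed, ho⟩ (hy.imp fun y h => (hY y).2 h)
  exact fun x => hcl t (hu ▸ mem_univ x)

end Pool.Agent.Lib.MP_eb34a4_co.DP
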