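import Mathlib

/-! A separating sphere gives a gradient of the norm that does not kill the direction. -/

namespace Pool.Agent.Lib.MP_eb34a4_co.DP

open Set Metric Filter Topology Module

variable {E : Type} [NormedAddCommGroup E] [NormedSpace ℝ E]

theorem ext_le {w : E} {g : E →L[ℝ] ℝ} (hg : HasFDerivAt (fun x : E => ‖x‖) g w) (h : E) :
    g h ≤ ‖w + h‖ - ‖w‖ := by
  have h1 : ConvexOn ℝ univ fun s : ℝ => ‖AffineMap.lineMap w (w + h) s‖ := by
    simpa [Function.comp_def] using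
      (convexOn_univ_norm (E := E)).comp_affineMap (AffineMap.lineMap w (w + h) : ℝ →ᵃ[ℝ] E)
  have h2 : HasDerivAt (fun s : ℝ => AffineMap.lineMap w (w + h) s) h 0 := by
    simpa using AffineMap.hasDerivAt_lineMap (a := w) (b := w + h) (x := (0 : ℝ))
  have h3 : HasFDerivAt (fun x : E => ‖x‖) g (AffineMap.lineMap w (w + h) (0 : ℝ)) := by
    rwa [AffineMap.lineMap_apply_zero]
  have h4 := h1.le_slope_of_hasDerivAt (mem_univ 0) (mem_univ 1) one_pos
    (h3.comp_hasDerivAt (0 : ℝ) h2)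
  simpa [slope_def_field] using h4

variable [FiniteDimensional ℝ E]

theorem ext_grad (D : Set E) (hD : IsOpen D) {x a b : E} (hx : x ∈ D) (ha : ‖x - a‖ < 1)
    (hb : 1 < ‖x - b‖) :
    ∃ p ∈ segment ℝ a b, ∃ (u : E) (g : E →L[ℝ] ℝ), ‖u‖ = 1 ∧
      HasFDerivAt (fun x : E => ‖x‖) g u ∧ p - u ∈ D ∧ g (b - a) ≠ 0 := by
  have hc : ContinuousOn (fun t : ℝ => ‖x - (a + t • (b - a))‖) (Icc 0 1) := by fun_prop
  obtain ⟨t, ht, h1⟩ := intermediate_value_Icc zero_le_one hc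
    (show (1 : ℝ) ∈ Icc _ _ from ⟨by simpa using ha.le, by simpa using hb.le⟩)
  have hp : a + t • (b - a) ∈ segment ℝ a b := by
    rw [segment_eq_image']
    exact ⟨t, ht, rfl⟩
  obtain ⟨p, rfl, hv⟩ : ∃ p, a + t • (b - a) = p ∧ t • (b - a) = p - a := ⟨_, rfl, by simp⟩
  set p := a + t • (b - a) with hp'
  have h2 : ‖p - x‖ = 1 := (norm_sub_rev _ _).trans h1
  have h3 : ∀ᶠ w in 𝓝 (p - x), ‖w + -(p - a)‖ < ‖w‖ := by
    refine ContinuousAt.eventually_lt (by fun_prop) (by fun_prop) ?_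
    rw [h2, show p - x + -(p - a) = -(x - a) by abel, norm_neg]
    exact ha
  have h4 : ∀ᶠ w in 𝓝 (p - x), p - ‖w‖⁻¹ • w ∈ D := by
    have h5 : ContinuousAt (fun w : E => p - ‖w‖⁻¹ • w) (p - x) :=
      continuousAt_const.sub
        ((continuous_norm.continuousAt.inv₀ (by rw [h2]; exact one_ne_zero)).smul continuousAt_id)
    refine h5.eventually (hD.mem_nhds ?_)
    simpa [h2] using hx
  obtain ⟨w, h5, h6, h7⟩ := (dense_differentiableAt_norm (E := E)).inter_nhds_nonempty (h3.and h4)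
  have h8 : 0 < ‖w‖ := (norm_nonneg _).trans_lt h6
  refine ⟨p, hp, ‖w‖⁻¹ • w, _, ?_, h5.hasFDerivAt.hasFDerivAt_norm_smul_pos (inv_pos.2 h8), h7,
    fun h9 => ?_⟩
  · rw [norm_smul, norm_inv, norm_norm, inv_mul_cancel₀ h8.ne']
  · have h10 := ext_le h5.hasFDerivAt (-(p - a))
    rw [map_neg, ← hv, map_smul, h9, hv, smul_zero] at h10
    linarith

end Pool.Agent.Lib.MP_eb34a4_co.DP
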