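import Mathlib

/-! A continuous section of the projection along a line, with values in the unit sphere. -/

namespace Pool.Agent.Lib.MP_eb34a4_co.DP

open Set Metric Filter Topology Module

variable {E : Type} [NormedAddCommGroup E] [NormedSpace ℝ E]

theorem hemi_between {u v : E} {s t : ℝ} (hs : 0 < s) (ht : 0 < t) (hu : ‖u‖ ≤ 1)
    (hw : ‖u + (s + t) • v‖ < 1) : ‖u + s • v‖ < 1 := by
  have hst : 0 < s + t := add_pos hs ht
  have e : u + s • v = (t / (s + t)) • u + (s / (s + t)) • (u + (s + t) • v) := by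
    rw [smul_add, smul_smul, div_mul_cancel₀ _ hst.ne', ← add_assoc, ← add_smul, ← add_div,
      add_comm t s, div_self hst.ne', one_smul]
  have h1 : t / (s + t) + s / (s + t) = 1 := by
    rw [← add_div, add_comm t s, div_self hst.ne']
  have a1 : 0 < t / (s + t) := div_pos ht hst
  have a2 : 0 < s / (s + t) := div_pos hs hst
  rw [e]
  refine (norm_add_le _ _).trans_lt ?_
  rw [norm_smul, norm_smul, Real.norm_of_nonneg a1.le, Real.norm_of_nonneg a2.le]
  nlinarith [mul_le_mul_of_nonneg_left hu a1.le, mul_lt_mul_of_pos_left hw a2]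

theorem hemi_entry {v w : E} (hv : v ≠ 0) (hw : ‖w‖ < 1) :
    ∃ r : ℝ, ‖w - r • v‖ = 1 ∧ ∀ s : ℝ, 0 ≤ s → 1 ≤ ‖w - r • v - s • v‖ := by
  have hv' : 0 < ‖v‖ := norm_pos_iff.2 hv
  have hc : Continuous fun s : ℝ => ‖w - s • v‖ := by fun_prop
  have hM : 0 ≤ 2 / ‖v‖ := by positivity
  have h1 : (1 : ℝ) ∈ Icc ‖w - (0 : ℝ) • v‖ ‖w - (2 / ‖v‖) • v‖ := by
    refine ⟨by simpa using hw.le, ?_⟩
    have := norm_sub_norm_le ((2 / ‖v‖) • v) w
    rw [norm_smul, Real.norm_of_nonneg hM, div_mul_cancel₀ _ hv'.ne', norm_sub_rev] at this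
    linarith
  obtain ⟨r, hr, e⟩ := intermediate_value_Icc hM hc.continuousOn h1
  have e' : ‖w - r • v‖ = 1 := e
  refine ⟨r, e', fun s hs => ?_⟩
  by_contra h
  rw [not_le] at h
  have hs0 : 0 < s := hs.lt_of_ne fun e0 => by
    rw [← e0, zero_smul, sub_zero] at h
    linarith
  have hr0 : 0 < r := hr.1.lt_of_ne fun e0 => by
    rw [← e0, zero_smul, sub_zero] at e'
    linarith
  have := hemi_between (u := w - r • v - s • v) (v := v) hs0 hr0 h.le (by
    rw [add_smul, ← add_assoc, sub_add_cancel, sub_add_cancel]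
    exact hw)
  rw [sub_add_cancel] at this
  linarith

variable [FiniteDimensional ℝ E]

theorem hemi (v : E) (hv : v ≠ 0) [IsClosed ((ℝ ∙ v : Submodule ℝ E) : Set E)] (ρ : ℝ)
    (hρ : ρ < 1) :
    ∃ φ : (E ⧸ (ℝ ∙ v : Submodule ℝ E)) → E, ContinuousOn φ (closedBall 0 ρ) ∧
      ∀ y ∈ closedBall (0 : E ⧸ (ℝ ∙ v : Submodule ℝ E)) ρ,
        ‖φ y‖ = 1 ∧ (ℝ ∙ v : Submodule ℝ E).mkQ (φ y) = y ∧
          ∀ s : ℝ, 0 ≤ s → 1 ≤ ‖φ y - s • v‖ := by
  classical
  have : ProperSpace E := FiniteDimensional.proper ℝ E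
  have cm : Continuous (ℝ ∙ v : Submodule ℝ E).mkQ := LinearMap.continuous_of_finiteDimensional _
  have lift : ∀ y ∈ closedBall (0 : E ⧸ (ℝ ∙ v : Submodule ℝ E)) ρ,
      ∃ w : E, (ℝ ∙ v : Submodule ℝ E).mkQ w = y ∧ ‖w‖ < 1 := fun y hy => by
    rw [mem_closedBall_zero_iff] at hy
    obtain ⟨w, h1, h2⟩ := Submodule.Quotient.norm_mk_lt y (sub_pos.2 hρ)
    exact ⟨w, h1, by linarith⟩
  have mv : ∀ s : ℝ, (ℝ ∙ v : Submodule ℝ E).mkQ (s • v) = 0 := fun s =>
    (Submodule.Quotient.mk_eq_zero _).2 (Submodule.mem_span_singleton.2 ⟨s, rfl⟩)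
  obtain ⟨Z, hZ⟩ : ∃ Z : Set E, Z = {u | ‖u‖ = 1 ∧
    (ℝ ∙ v : Submodule ℝ E).mkQ u ∈ closedBall (0 : E ⧸ (ℝ ∙ v : Submodule ℝ E)) ρ ∧
      ∀ s : ℝ, 0 ≤ s → 1 ≤ ‖u - s • v‖} := ⟨_, rfl⟩
  have mZ : ∀ u, u ∈ Z ↔ ‖u‖ = 1 ∧
      (ℝ ∙ v : Submodule ℝ E).mkQ u ∈ closedBall (0 : E ⧸ (ℝ ∙ v : Submodule ℝ E)) ρ ∧
      ∀ s : ℝ, 0 ≤ s → 1 ≤ ‖u - s • v‖ := fun u => by rw [hZ]; rfl
  have kZ : IsCompact Z := by
    refine (isCompact_sphere (0 : E) 1).of_isClosed_subset ?_ fun u hu => by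
      simpa using ((mZ u).1 hu).1
    rw [hZ, ofPred_and, ofPred_and, ofPred_forall]
    refine (isClosed_eq continuous_norm continuous_const).inter
      ((isClosed_closedBall.preimage cm).inter (isClosed_iInter fun s => ?_))
    rw [ofPred_forall]
    exact isClosed_iInter fun _ => isClosed_le continuous_const (by fun_prop)
  have side : ∀ u ∈ Z, ∀ s : ℝ, 0 < s → u + s • v ∉ Z := fun u hu s hs hu' => by
    obtain ⟨h1, h2, h3⟩ := (mZ _).1 hu'
    obtain ⟨w, e, hw⟩ := lift _ h2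
    obtain ⟨t, ht⟩ := Submodule.mem_span_singleton.1 ((Submodule.Quotient.eq _).1 e)
    have ew : w = u + (s + t) • v := by
      rw [add_smul, ht]
      abel
    have ht0 : 0 < t := by
      by_contra h
      have := h3 (-t) (by linarith)
      rw [neg_smul, sub_neg_eq_add, add_assoc, ← add_smul, ← ew] at this
      linarith
    have := hemi_between hs ht0 ((mZ _).1 hu).1.le (ew ▸ hw)
    linarith
  let f : Z → closedBall (0 : E ⧸ (ℝ ∙ v : Submodule ℝ E)) ρ := fun u =>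
    ⟨(ℝ ∙ v : Submodule ℝ E).mkQ u, ((mZ u).1 u.2).2.1⟩
  have fc : Continuous f := (cm.comp continuous_subtype_val).subtype_mk _
  have fb : Function.Bijective f := by
    refine ⟨fun a b e => ?_, fun y => ?_⟩
    · obtain ⟨t, ht⟩ := Submodule.mem_span_singleton.1
        ((Submodule.Quotient.eq _).1 (congrArg Subtype.val e))
      rcases lt_trichotomy t 0 with h | h | h
      · refine (side a a.2 (-t) (by linarith) ?_).elim
        rw [neg_smul, ht, neg_sub, add_sub_cancel]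
        exact b.2
      · rw [h, zero_smul] at ht
        exact Subtype.ext (sub_eq_zero.1 ht.symm)
      · refine (side b b.2 t h ?_).elim
        rw [ht, add_sub_cancel]
        exact a.2
    · obtain ⟨w, e, hw⟩ := lift _ y.2
      obtain ⟨r, h1, h2⟩ := hemi_entry hv hw
      have e' : (ℝ ∙ v : Submodule ℝ E).mkQ (w - r • v) = y := by rw [map_sub, mv, sub_zero, e]
      exact ⟨⟨w - r • v, (mZ _).2 ⟨h1, e' ▸ y.2, h2⟩⟩, Subtype.ext e'⟩
  have : CompactSpace Z := isCompact_iff_compactSpace.1 kZ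
  let H := Continuous.homeoOfEquivCompactToT2 (f := Equiv.ofBijective f fb) fc
  refine ⟨fun y => if h : y ∈ closedBall (0 : E ⧸ (ℝ ∙ v : Submodule ℝ E)) ρ then
    (H.symm ⟨y, h⟩ : E) else 0, ?_, fun y hy => ?_⟩
  · rw [continuousOn_iff_continuous_domRestrict]
    refine (continuous_subtype_val.comp H.symm.continuous).congr fun y => ?_
    simp only [Function.comp, domRestrict, dif_pos y.2]
  · simp only [dif_pos hy]
    obtain ⟨h1, -, h3⟩ := (mZ _).1 (H.symm ⟨y, hy⟩).2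
    exact ⟨h1, congrArg Subtype.val (H.apply_symm_apply ⟨y, hy⟩), h3⟩

end Pool.Agent.Lib.MP_eb34a4_co.DP
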