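import Mathlib

/-! The bound of Bohnenblust for the Jung constant of a normed space. -/

namespace Pool.Agent.Lib.MP_eb34a4_co.DP

open Set Metric Filter Topology Module

variable {E : Type} [NormedAddCommGroup E] [NormedSpace ℝ E] [FiniteDimensional ℝ E]

theorem jung (P : Set E) (D : ℝ) (hD : 0 ≤ D) (hP : ∀ x ∈ P, ∀ y ∈ P, ‖x - y‖ ≤ D) :
    ∃ c : E, ∀ x ∈ P, ‖c - x‖ ≤ D * ((finrank ℝ E : ℝ) / (finrank ℝ E + 1)) := by
  classical
  have : ProperSpace E := FiniteDimensional.proper_real E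
  obtain ⟨c, hc⟩ := Convex.helly_theorem_compact' (𝕜 := ℝ)
    (F := fun x : P => closedBall (x : E) (D * ((finrank ℝ E : ℝ) / (finrank ℝ E + 1))))
    (fun _ => convex_closedBall _ _) (fun _ => isCompact_closedBall _ _) fun I hI => by
      rcases I.eq_empty_or_nonempty with rfl | hne
      · simp
      have hn : (0 : ℝ) < I.card := by exact_mod_cast hne.card_pos
      have hle : (I.card : ℝ) ≤ finrank ℝ E + 1 := by exact_mod_cast hI
      refine ⟨(I.card : ℝ)⁻¹ • ∑ y ∈ I, (y : E), mem_iInter₂.2 fun x hx => ?_⟩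
      have e : (I.card : ℝ)⁻¹ • ∑ y ∈ I, (y : E) - x =
          (I.card : ℝ)⁻¹ • ∑ y ∈ I.erase x, ((y : E) - x) := by
        rw [Finset.sum_erase _ (sub_self _), Finset.sum_sub_distrib, Finset.sum_const, smul_sub,
          ← Nat.cast_smul_eq_nsmul ℝ, inv_smul_smul₀ hn.ne']
      have h1 : ‖∑ y ∈ I.erase x, ((y : E) - x)‖ ≤ (I.card - 1 : ℝ) * D := by
        refine (norm_sum_le _ _).trans ((Finset.sum_le_card_nsmul _ _ D
          fun (y : P) _ => hP y y.2 x x.2).trans_eq ?_)
        rw [nsmul_eq_mul, Finset.cast_card_erase_of_mem hx]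
      rw [mem_closedBall, dist_eq_norm, e, norm_smul, norm_inv, Real.norm_natCast,
        inv_mul_le_iff₀ hn]
      refine h1.trans ?_
      have hd : (0 : ℝ) < finrank ℝ E + 1 := by positivity
      rw [mul_comm _ D, mul_left_comm]
      refine mul_le_mul_of_nonneg_left ?_ hD
      rw [← mul_div_assoc, le_div_iff₀ hd]
      nlinarith
  refine ⟨c, fun x hx => ?_⟩
  have h1 := mem_iInter.1 hc ⟨x, hx⟩
  rwa [mem_closedBall, dist_eq_norm] at h1

end Pool.Agent.Lib.MP_eb34a4_co.DP
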