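import Pool.Agent.Lib.MP_eb34a4_co.DP.Mir

/-! A common neighbour from independent gradients. -/

namespace Pool.Agent.Lib.MP_eb34a4_co.DP

open Set Metric Filter Topology Module

variable {E : Type} [NormedAddCommGroup E] [NormedSpace ℝ E] [FiniteDimensional ℝ E]

omit [FiniteDimensional ℝ E] in
theorem key_sec {ι : Type} [Fintype ι] (g : ι → E →L[ℝ] ℝ) (hli : LinearIndependent ℝ g) :
    ∃ S : (ι → ℝ) →L[ℝ] E, ∀ x i, g i (S x) = x i := by
  classical
  let T : E →ₗ[ℝ] ι → ℝ := LinearMap.pi fun i => (g i : E →ₗ[ℝ] ℝ)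
  have hT : LinearMap.range T = ⊤ := by
    by_contra h
    obtain ⟨φ, h0, h1⟩ := Submodule.exists_le_ker_of_lt_top _ (lt_top_iff_ne_top.2 h)
    have h2 := Fintype.linearIndependent_iff.1 hli (fun i => φ fun j => if i = j then 1 else 0)
      (ContinuousLinearMap.ext fun x => by
        have h3 : φ (T x) = 0 := h1 ⟨x, rfl⟩
        rw [LinearMap.pi_apply_eq_sum_univ] at h3
        simpa [T, mul_comm] using h3)
    refine h0 (LinearMap.ext fun x => ?_)
    rw [LinearMap.pi_apply_eq_sum_univ]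
    simp [h2]
  obtain ⟨S, hS⟩ := T.exists_rightInverse_of_surjective hT
  exact ⟨LinearMap.toContinuousLinearMap S, fun x i => congrFun (LinearMap.congr_fun hS x) i⟩

theorem key {ι : Type} [Fintype ι] (hι : Fintype.card ι = finrank ℝ E) (u : ι → E)
    (g : ι → E →L[ℝ] ℝ) (hu : ∀ i, ‖u i‖ = 1)
    (hg : ∀ i, HasFDerivAt (fun x : E => ‖x‖) (g i) (u i)) (hli : LinearIndependent ℝ g)
    (A : ι → Set E) (y : E) (hA : ∀ i, y - u i ∈ closure (A i)) (ρ : ℝ) (hρ : 0 < ρ) :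
    ∃ z, ‖z - y‖ < ρ ∧ ∀ i, ∃ a ∈ A i, ‖z - a‖ = 1 := by
  obtain ⟨S, hS⟩ := key_sec g hli
  have c0 : 0 < ‖S‖ + 1 := by positivity
  have h1 : ∀ᶠ h in 𝓝 (0 : E), ‖h‖ < ρ ∧ ∀ i, |‖u i + h‖ - 1 - g i h| ≤ (2 * (‖S‖ + 1))⁻¹ * ‖h‖ :=
    ((continuous_norm.tendsto' 0 0 norm_zero).eventually_lt_const hρ).and
      (eventually_all.2 fun i => by
        simpa only [hu, Real.norm_eq_abs] using
          (hasFDerivAt_iff_isLittleO_nhds_zero.1 (hg i)).def
            (c := (2 * (‖S‖ + 1))⁻¹) (by positivity))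
  obtain ⟨δ, d0, hδ⟩ := Metric.eventually_nhds_iff.1 h1
  obtain ⟨r, hr⟩ : ∃ r, r = δ / (2 * (‖S‖ + 1)) := ⟨_, rfl⟩
  have r0 : 0 < r := by rw [hr]; positivity
  have h2 : ∀ x : ι → ℝ, (∀ j, |x j| ≤ 1) → ‖S (r • x)‖ ≤ (‖S‖ + 1) * r := fun x hx =>
    (S.le_opNorm _).trans (mul_le_mul (by linarith) (by
      rw [norm_smul, Real.norm_of_nonneg r0.le]
      exact mul_le_of_le_one_right r0.le ((pi_norm_le_iff_of_nonneg zero_le_one).2 hx))
      (norm_nonneg _) c0.le)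
  have h3 : ∀ x : ι → ℝ, (∀ j, |x j| ≤ 1) → dist (S (r • x)) 0 < δ := fun x hx => by
    have e : (‖S‖ + 1) * r = δ / 2 := by rw [hr]; field_simp
    rw [dist_zero_right]
    linarith [h2 x hx]
  choose a ha hd using fun i => Metric.mem_closure_iff.1 (hA i) (r / 2) (half_pos r0)
  have h4 : ∀ (x : ι → ℝ) i, (∀ j, |x j| ≤ 1) → |‖y + S (r • x) - a i‖ - 1 - r * x i| ≤ r := by
    intro x i hx
    have g1 := (hδ (h3 x hx)).2 i
    have g2 := abs_norm_sub_norm_le (y + S (r • x) - a i) (u i + S (r • x))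
    have g3 : (2 * (‖S‖ + 1))⁻¹ * ‖S (r • x)‖ ≤ r / 2 :=
      (mul_le_mul_of_nonneg_left (h2 x hx) (by positivity)).trans_eq (by field_simp)
    have g4 := (dist_eq_norm _ _).symm.trans_lt (hd i)
    rw [hS, Pi.smul_apply, smul_eq_mul, abs_le] at g1
    rw [show y + S (r • x) - a i - (u i + S (r • x)) = y - u i - a i by abel, abs_le] at g2
    exact abs_le.2 ⟨by linarith [g1.1, g2.1], by linarith [g1.2, g2.2]⟩
  obtain ⟨x, hx, hz⟩ := miranda (fun i x => ‖y + S (r • x) - a i‖ - 1) (fun i => by fun_prop)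
    (fun i x hx e => by
      have := (abs_le.1 (h4 x i hx)).2
      rw [e] at this
      linarith)
    fun i x hx e => by
      have := (abs_le.1 (h4 x i hx)).1
      rw [e] at this
      linarith
  exact ⟨y + S (r • x), by simpa only [add_sub_cancel_left] using (hδ (h3 x hx)).1,
    fun i => ⟨a i, ha i, sub_eq_zero.1 (hz i)⟩⟩

end Pool.Agent.Lib.MP_eb34a4_co.DP
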