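import Pool.Agent.Lib.MP_eb34a4_co.DP.Nerve
import Pool.Agent.Lib.MP_eb34a4_co.DP.Pieces
import Pool.Agent.Lib.MP_eb34a4_co.DP.Ultra
import Pool.Agent.Lib.MP_eb34a4_co.DP.Hemi

/-! At most one colour is nowhere dense in a lune. -/

namespace Pool.Agent.Lib.MP_eb34a4_co.DP

open Set Metric Filter Topology Module

variable {E : Type} [NormedAddCommGroup E] [NormedSpace ℝ E] [FiniteDimensional ℝ E]

omit [FiniteDimensional ℝ E] in
theorem lune_mem {v u w : E} {ρ s₀ : ℝ} (hv : 0 < ‖v‖) (hρ : ‖v‖ ≤ 1 - ρ) (hu : ‖u‖ = 1)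
    (hs : ∀ s : ℝ, 0 ≤ s → 1 ≤ ‖u - s • v‖) (hw : ‖w‖ < (1 + ρ) / 2) (e : s₀ • v = w - u) :
    ‖u + (1 / 2 : ℝ) • v‖ < 1 ∧ 1 < ‖u - (1 / 2 : ℝ) • v‖ := by
  have h0 : 0 < s₀ := not_le.1 fun c => by
    have := hs (-s₀) (by linarith)
    rw [neg_smul, e, sub_neg_eq_add, add_sub_cancel] at this
    linarith
  have h1 : 1 / 2 < s₀ := by
    have e1 : ‖u‖ ≤ ‖w‖ + ‖s₀ • v‖ := by
      rw [e]
      exact (le_of_eq (by rw [sub_sub_cancel])).trans (norm_sub_le w (w - u))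
    rw [norm_smul, Real.norm_of_nonneg h0.le, hu] at e1
    exact lt_of_mul_lt_mul_right (by linarith) hv.le
  have h2 : ‖u + (1 / 2 : ℝ) • v‖ < 1 := by
    have l0 : 0 < 1 / (2 * s₀) := by positivity
    have l1 : 1 / (2 * s₀) ≤ 1 := (div_le_one (by positivity)).2 (by linarith)
    have e1 : u + (1 / 2 : ℝ) • v = (1 - 1 / (2 * s₀)) • u + (1 / (2 * s₀)) • w := by
      rw [show (1 / 2 : ℝ) = 1 / (2 * s₀) * s₀ by field_simp, mul_smul, e]
      module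
    rw [e1]
    refine (norm_add_le _ _).trans_lt ?_
    rw [norm_smul, norm_smul, Real.norm_of_nonneg l0.le, Real.norm_of_nonneg (by linarith), hu]
    nlinarith
  refine ⟨h2, ?_⟩
  have e1 : (2 : ℝ) • u = (u + (1 / 2 : ℝ) • v) + (u - (1 / 2 : ℝ) • v) := by module
  have e2 := norm_add_le (u + (1 / 2 : ℝ) • v) (u - (1 / 2 : ℝ) • v)
  rw [← e1, norm_smul, hu, Real.norm_of_nonneg zero_le_two] at e2
  linarith

omit [FiniteDimensional ℝ E] in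
theorem lune_far {a b x : E} {θ : ℝ} (h0 : 0 ≤ θ) (h1 : θ ≤ 1) (ha : ‖x - a‖ < 1)
    (hb : 1 < ‖x - (a + θ • (b - a))‖) : 1 < ‖x - b‖ := not_le.1 fun c => by
  have e1 : x - (a + θ • (b - a)) = (1 - θ) • (x - a) + θ • (x - b) := by module
  have e2 := norm_add_le ((1 - θ) • (x - a)) (θ • (x - b))
  rw [← e1, norm_smul, norm_smul, Real.norm_of_nonneg h0, Real.norm_of_nonneg (by linarith)] at e2
  nlinarith

theorem lune {κ : Type} [Fintype κ] (hκ : Fintype.card κ = finrank ℝ E + 1) (c : E → κ)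
    (hc : ∀ x y : E, ‖x - y‖ = 1 → c x ≠ c y) (a b : E) (hab : a ≠ b) (s t : κ) (hst : s ≠ t) :
    ∃ j, (j = s ∨ j = t) ∧
      ∃ x ∈ interior (closure (c ⁻¹' {j})), ‖x - a‖ < 1 ∧ 1 < ‖x - b‖ := by
  classical
  obtain ⟨c', hc', hcl⟩ := ultra c hc
  obtain ⟨d, hd⟩ : ∃ d : ℝ, d = finrank ℝ E := ⟨_, rfl⟩
  have d0 : 0 ≤ d := hd ▸ Nat.cast_nonneg _
  obtain ⟨r, hr⟩ : ∃ r : ℝ, r = (1 + 1 / (2 * d + 2)) * (d / (d + 1)) := ⟨_, rfl⟩
  have r0 : 0 ≤ r := hr ▸ by positivity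
  have r1 : r < 1 := by
    rw [hr, ← mul_div_assoc, div_lt_one (by positivity), add_mul, one_mul, add_lt_add_iff_left,
      one_div_mul_eq_div, div_lt_one (by positivity)]
    linarith
  have n0 : 0 < ‖b - a‖ := norm_pos_iff.2 (sub_ne_zero.2 hab.symm)
  obtain ⟨θ, t0, t1, t2⟩ : ∃ θ : ℝ, 0 < θ ∧ θ ≤ 1 ∧ θ * ‖b - a‖ ≤ 1 - (1 + r) / 2 :=
    ⟨min 1 ((1 - (1 + r) / 2) / ‖b - a‖), lt_min one_pos (div_pos (by linarith) n0),
      min_le_left _ _, (le_div_iff₀ n0).1 (min_le_right _ _)⟩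
  obtain ⟨v, hv⟩ : ∃ v, v = θ • (b - a) := ⟨_, rfl⟩
  have v1 : ‖v‖ = θ * ‖b - a‖ := by rw [hv, norm_smul, Real.norm_of_nonneg t0.le]
  have v0 : 0 < ‖v‖ := v1 ▸ mul_pos t0 n0
  have v2 : v ≠ 0 := norm_pos_iff.1 v0
  have : IsClosed ((ℝ ∙ v : Submodule ℝ E) : Set E) := Submodule.closed_of_finiteDimensional _
  have := FiniteDimensional.proper_real (E ⧸ (ℝ ∙ v : Submodule ℝ E))
  obtain ⟨φ, hφ, hφ'⟩ := hemi v v2 ((1 + r) / 2) (by linarith)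
  have hψ : ContinuousOn (fun y => a + (1 / 2 : ℝ) • v + φ y) (closedBall 0 ((1 + r) / 2)) :=
    continuousOn_const.add hφ
  have hin : ∀ y ∈ closedBall (0 : E ⧸ (ℝ ∙ v : Submodule ℝ E)) ((1 + r) / 2),
      ‖a + (1 / 2 : ℝ) • v + φ y - a‖ < 1 ∧ 1 < ‖a + (1 / 2 : ℝ) • v + φ y - b‖ := fun y hy => by
    obtain ⟨p1, p2, p3⟩ := hφ' y hy
    obtain ⟨w, w1, w2⟩ := Submodule.Quotient.norm_mk_lt y
      (show 0 < (1 - (1 + r) / 2) / 2 by linarith)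
    obtain ⟨s₀, hs₀⟩ := Submodule.mem_span_singleton.1
      ((Submodule.Quotient.eq _).1 (w1.trans p2.symm))
    have := mem_closedBall_zero_iff.1 hy
    obtain ⟨q1, q2⟩ := lune_mem v0 (v1.trans_le t2) p1 p3 (by linarith) hs₀
    have q3 : ‖a + (1 / 2 : ℝ) • v + φ y - a‖ < 1 :=
      (congrArg norm (by module)).trans_lt q1
    exact ⟨q3, lune_far t0.le t1 q3 (q2.trans_eq (congrArg norm (by rw [← hv]; module)))⟩
  obtain ⟨L, g, l1, l2, l3, l4, l5, l6, l7⟩ := pieces c' hc' _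
    ((isCompact_closedBall _ _).image_of_continuousOn hψ) (1 / (2 * d + 2)) (by positivity)
  obtain ⟨y, -, T, hT, hT'⟩ := nerve (E := E ⧸ (ℝ ∙ v : Submodule ℝ E)) 0 ((1 + r) / 2) r r0
    (by linarith) (fun j y => L j (a + (1 / 2 : ℝ) • v + φ y))
    (fun j y => (ℝ ∙ v : Submodule ℝ E).mkQ
      (g j (a + (1 / 2 : ℝ) • v + φ y) - (a + (1 / 2 : ℝ) • v)))
    (fun j => (l1 j).comp_continuousOn hψ) (fun j x _ => l2 j _)
    (fun j => ((l3 j).image fun z => (ℝ ∙ v : Submodule ℝ E).mkQ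
      (z - (a + (1 / 2 : ℝ) • v))).subset (by
        rintro _ ⟨x, -, rfl⟩
        exact ⟨_, mem_range_self _, rfl⟩))
    (fun j x hx h => ((hψ x hx).eventually (l4 j _ h)).mono fun x' e => by rw [e])
    (fun j x hx h => by
      have e := l5 j _ h
      rw [← hd, ← hr] at e
      refine le_trans ?_ e
      nth_rewrite 2 [← (hφ' x hx).2.1]
      rw [← map_sub, sub_sub]
      exact Submodule.Quotient.norm_mk_le _ _)
    fun x hx => ⟨_, l6 _ (mem_image_of_mem _ hx)⟩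
  have hq := (ℝ ∙ v : Submodule ℝ E).finrank_quotient_add_finrank
  rw [finrank_span_singleton v2] at hq
  obtain ⟨j, hj, hjT⟩ : ∃ j, (j = s ∨ j = t) ∧ j ∈ T := by
    by_contra hn
    have e1 : T ⊆ (Finset.univ.erase s).erase t := fun j hj => Finset.mem_erase.2
      ⟨fun e => hn ⟨j, Or.inr e, hj⟩, Finset.mem_erase.2
        ⟨fun e => hn ⟨j, Or.inl e, hj⟩, Finset.mem_univ _⟩⟩
    have e2 := Finset.card_le_card e1
    rw [Finset.card_erase_of_mem (Finset.mem_erase.2 ⟨hst.symm, Finset.mem_univ _⟩),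
      Finset.card_erase_of_mem (Finset.mem_univ _), Finset.card_univ] at e2
    omega
  obtain ⟨_, ⟨z, hz, rfl⟩, e⟩ := l7 j _ (hT' j hjT)
  have hU : IsOpen {x : E | ‖x - a‖ < 1 ∧ 1 < ‖x - b‖} :=
    (isOpen_lt (f := fun x : E => ‖x - a‖) (g := fun _ => (1 : ℝ)) (by fun_prop)
      continuous_const).inter (isOpen_lt (f := fun _ : E => (1 : ℝ)) (g := fun x => ‖x - b‖)
      continuous_const (by fun_prop))
  obtain ⟨x, x1, x2⟩ := mem_closure_iff.1 (hcl _) _ hU (hin z hz)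
  exact ⟨j, hj, x, e ▸ x2, x1⟩

end Pool.Agent.Lib.MP_eb34a4_co.DP
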