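import Pool.Agent.Lib.MP_eb34a4_co.DP.Nerve

/-! Some point sees all the open sets at distance one. -/

namespace Pool.Agent.Lib.MP_eb34a4_co.DP

open Set Metric Filter Topology Module

variable {E : Type} [NormedAddCommGroup E]

open Classical in
/-- the centres whose open unit ball contains `x` -/
noncomputable def seePat (Z : Finset E) (x : E) : Finset E := Z.filter fun b => ‖b - x‖ < 1

open Classical in
/-- a member of a finite set -/
noncomputable def seeCen (I : Finset E) : E := if h : I.Nonempty then h.choose else 0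

theorem see_mem {Z : Finset E} {x b : E} : b ∈ seePat Z x ↔ b ∈ Z ∧ ‖b - x‖ < 1 := by
  classical
  simp [seePat]

theorem see_cen {Z : Finset E} {x : E} (h : ∃ b ∈ Z, ‖b - x‖ < 1) :
    ‖seeCen (seePat Z x) - x‖ < 1 := by
  have hn : (seePat Z x).Nonempty := by
    obtain ⟨b, hb⟩ := h
    exact ⟨b, see_mem.2 hb⟩
  rw [seeCen, dif_pos hn]
  exact (see_mem.1 hn.choose_spec).2

theorem see_loc {Z : Finset E} {x : E} (h : ∀ b ∈ Z, ‖b - x‖ ≠ 1) :
    ∀ᶠ x' in 𝓝 x, seePat Z x' = seePat Z x := by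
  have : ∀ᶠ x' in 𝓝 x, ∀ b ∈ Z, (‖b - x'‖ < 1 ↔ ‖b - x‖ < 1) := by
    refine (eventually_all_finset Z).2 fun b hb => ?_
    have hc : Continuous fun x' : E => ‖b - x'‖ := by fun_prop
    rcases lt_or_gt_of_ne (h b hb) with h1 | h1
    · filter_upwards [hc.continuousAt.eventually_lt continuousAt_const h1] with x' hx'
      exact iff_of_true hx' h1
    · filter_upwards [continuousAt_const.eventually_lt hc.continuousAt h1] with x' hx'
      exact iff_of_false (not_lt.2 hx'.le) (not_lt.2 h1.le)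
  filter_upwards [this] with x' hx'
  ext b
  rw [see_mem, see_mem]
  exact and_congr_right (hx' b)

theorem see_fin (Z : Finset E) (G : Finset E → E) :
    (range fun x => G (seePat Z x)).Finite := by
  classical
  refine (Z.powerset.finite_toSet.image G).subset ?_
  rintro _ ⟨x, rfl⟩
  exact ⟨_, Finset.mem_coe.2 (Finset.mem_powerset.2 fun b hb => (see_mem.1 hb).1), rfl⟩

theorem see_cover {Q D : Set E} (hQ : IsCompact Q) (h : ∀ y, ∃ x ∈ D, ‖x - y‖ < 1) :
    ∃ X : Finset E, (∀ b ∈ X, b ∈ D) ∧ ∀ y ∈ Q, ∃ b ∈ X, ‖b - y‖ < 1 := by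
  classical
  choose f hf hf' using h
  obtain ⟨S, -, hS⟩ := hQ.elim_nhds_subcover (fun y => {z | ‖f y - z‖ < 1}) fun y _ =>
    (isOpen_lt (by fun_prop) continuous_const).mem_nhds (hf' y)
  refine ⟨S.image f, fun b hb => ?_, fun y hy => ?_⟩
  · obtain ⟨y, -, rfl⟩ := Finset.mem_image.1 hb
    exact hf y
  · obtain ⟨z, hz, h⟩ := mem_iUnion₂.1 (hS hy)
    exact ⟨f z, Finset.mem_image_of_mem f hz, h⟩

theorem see_sep {κ : Type} {Q : Set E} (hQ : IsCompact Q) (D : κ → Set E) (t : κ) {δ : ℝ}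
    (hδ : 0 < δ)
    (h : ∀ a b : E, a ≠ b → ∃ j, j ≠ t ∧ ∃ x ∈ D j, ‖x - a‖ < 1 ∧ 1 < ‖x - b‖) :
    ∃ W : Finset (κ × E), (∀ p ∈ W, p.1 ≠ t ∧ p.2 ∈ D p.1) ∧
      ∀ a ∈ Q, ∀ b ∈ Q, δ ≤ ‖a - b‖ → ∃ p ∈ W, ‖p.2 - a‖ < 1 ∧ 1 < ‖p.2 - b‖ := by
  classical
  have hP : IsCompact ((Q ×ˢ Q) ∩ {p : E × E | δ ≤ ‖p.1 - p.2‖}) :=
    (hQ.prod hQ).inter_right (isClosed_le continuous_const (by fun_prop))
  have h' : ∀ p : ↥((Q ×ˢ Q) ∩ {p : E × E | δ ≤ ‖p.1 - p.2‖}), ∃ w : κ × E,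
      (w.1 ≠ t ∧ w.2 ∈ D w.1) ∧ ‖w.2 - p.1.1‖ < 1 ∧ 1 < ‖w.2 - p.1.2‖ := by
    rintro ⟨p, hp⟩
    have hp2 : δ ≤ ‖p.1 - p.2‖ := hp.2
    obtain ⟨j, hj, x, hx, h1⟩ := h p.1 p.2 fun e => by
      rw [e, sub_self, norm_zero] at hp2
      linarith
    exact ⟨(j, x), ⟨hj, hx⟩, h1⟩
  choose f hf hf' using h'
  obtain ⟨S, hS⟩ := hP.elim_nhds_subcover'
    (fun p hp => {z : E × E | ‖(f ⟨p, hp⟩).2 - z.1‖ < 1} ∩ {z | 1 < ‖(f ⟨p, hp⟩).2 - z.2‖})
    fun p hp => ((isOpen_lt (by fun_prop) continuous_const).inter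
      (isOpen_lt continuous_const (by fun_prop))).mem_nhds (hf' ⟨p, hp⟩)
  refine ⟨S.image f, fun w hw => ?_, fun a ha b hb hab => ?_⟩
  · obtain ⟨y, -, rfl⟩ := Finset.mem_image.1 hw
    exact hf y
  · have hm : (a, b) ∈ (Q ×ˢ Q) ∩ {p : E × E | δ ≤ ‖p.1 - p.2‖} := ⟨⟨ha, hb⟩, hab⟩
    obtain ⟨z, hz, h⟩ := mem_iUnion₂.1 (hS hm)
    exact ⟨f z, Finset.mem_image_of_mem f hz, h⟩

theorem see_rad {D : Set E} (hD : IsOpen D) (X : Finset E) (hX : ∀ b ∈ X, b ∈ D) :
    ∃ δ : ℝ, 0 < δ ∧ 2 * δ ≤ 1 ∧ ∀ b ∈ X, ball b (2 * δ) ⊆ D := by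
  have h1 : ∀ᶠ δ : ℝ in 𝓝[>] 0, ∀ b ∈ X, ball b (2 * δ) ⊆ D := by
    refine (eventually_all_finset X).2 fun b hb => ?_
    obtain ⟨e, he, hs⟩ := Metric.isOpen_iff.1 hD b (hX b hb)
    filter_upwards [Ioo_mem_nhdsGT (half_pos he)] with δ hδ
    exact (ball_subset_ball (by linarith [hδ.2])).trans hs
  obtain ⟨δ, h, h'⟩ := (h1.and (Ioo_mem_nhdsGT (by norm_num : (0 : ℝ) < 1 / 2))).exists
  exact ⟨δ, h'.1, by linarith [h'.2], h⟩

variable [NormedSpace ℝ E]

theorem see_thick {D : Set E} {b y : E} {e : ℝ} (he : e ≤ 1) (hb : ball b e ⊆ D)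
    (hy : ∀ x ∈ D, ‖x - y‖ ≠ 1) : e ≤ |‖b - y‖ - 1| := by
  by_contra h
  rw [not_le] at h
  have h0 : ‖b - y‖ ≠ 0 := fun e0 => by
    rw [e0, zero_sub, abs_neg, abs_one] at h
    linarith
  refine hy (y + ‖b - y‖⁻¹ • (b - y)) (hb ?_) ?_
  · have : y + ‖b - y‖⁻¹ • (b - y) - b = (‖b - y‖⁻¹ - 1) • (b - y) := by
      rw [sub_smul, one_smul]
      abel
    rw [mem_ball, dist_eq_norm, this, norm_smul, Real.norm_eq_abs,
      ← abs_of_nonneg (norm_nonneg (b - y)), ← abs_mul, abs_of_nonneg (norm_nonneg (b - y)),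
      sub_mul, inv_mul_cancel₀ h0, one_mul, abs_sub_comm]
    exact h
  · rw [add_sub_cancel_left, norm_smul, norm_inv, norm_norm, inv_mul_cancel₀ h0]

variable [FiniteDimensional ℝ E]

theorem see {κ : Type} [Fintype κ] (hκ : Fintype.card κ = finrank ℝ E + 1)
    (hd : 2 ≤ finrank ℝ E) (D : κ → Set E) (hD : ∀ t, IsOpen (D t))
    (h1 : ∀ y t, ∃ x ∈ D t, ‖x - y‖ < 1)
    (h2 : ∀ a b : E, a ≠ b → ∀ s t, s ≠ t → ∃ j, (j = s ∨ j = t) ∧
      ∃ x ∈ D j, ‖x - a‖ < 1 ∧ 1 < ‖x - b‖) :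
    ∃ y, ∀ t, ∃ x ∈ D t, ‖x - y‖ = 1 := by
  classical
  by_contra hno
  have hno' : ∀ y, ∃ t, ∀ x ∈ D t, ‖x - y‖ ≠ 1 := fun y => by
    by_contra h
    refine hno ⟨y, fun t => ?_⟩
    by_contra h'
    exact h ⟨t, fun x hx e => h' ⟨x, hx, e⟩⟩
  have : ProperSpace E := FiniteDimensional.proper ℝ E
  obtain ⟨t0, ht0⟩ := hno' 0
  obtain ⟨K, hK⟩ : ∃ K : Set E, K = {y | ∀ x ∈ D t0, ‖x - y‖ ≠ 1} := ⟨_, rfl⟩
  have mK : ∀ y, y ∈ K ↔ ∀ x ∈ D t0, ‖x - y‖ ≠ 1 := fun y => by rw [hK]; rfl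
  have nK : K.Nonempty := ⟨0, (mK 0).2 ht0⟩
  have hQ : IsCompact (closedBall (0 : E) 3) := isCompact_closedBall _ _
  choose X hX hX' using fun t => see_cover hQ fun y => h1 y t
  obtain ⟨δ, hδ, hδ1, hδ2⟩ := see_rad (hD t0) (X t0) (hX t0)
  obtain ⟨S, hS⟩ : ∃ S : Finset κ, S = Finset.univ.erase t0 := ⟨_, rfl⟩
  have mS : ∀ t, t ∈ S ↔ t ≠ t0 := fun t => by simp [hS]
  have cS : 1 < S.card := by
    rw [hS, Finset.card_erase_of_mem (Finset.mem_univ _), Finset.card_univ]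
    omega
  obtain ⟨s1, hs1, s2, hs2, hs⟩ := Finset.one_lt_card.1 cS
  have nS : S.Nonempty := ⟨s1, hs1⟩
  obtain ⟨W, hW, hW'⟩ := see_sep hQ D t0 hδ fun a b hab => by
    obtain ⟨j, hj, h⟩ := h2 a b hab s1 s2 hs
    refine ⟨j, ?_, h⟩
    rcases hj with rfl | rfl
    exacts [(mS _).1 hs1, (mS _).1 hs2]
  obtain ⟨Z, hZ⟩ : ∃ Z : κ → Finset E,
      Z = fun t => X t ∪ (W.filter fun p => p.1 = t).image Prod.snd := ⟨_, rfl⟩
  have zD : ∀ t, ∀ b ∈ Z t, b ∈ D t := fun t b hb => by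
    rw [hZ] at hb
    rcases Finset.mem_union.1 hb with h | h
    · exact hX t b h
    · obtain ⟨p, hp, rfl⟩ := Finset.mem_image.1 h
      obtain ⟨h1, rfl⟩ := Finset.mem_filter.1 hp
      exact (hW p h1).2
  have zX : ∀ t, ∀ y ∈ closedBall (0 : E) 3, ∃ b ∈ Z t, ‖b - y‖ < 1 := fun t y hy => by
    obtain ⟨b, hb, h⟩ := hX' t y hy
    exact ⟨b, by rw [hZ]; exact Finset.mem_union_left _ hb, h⟩
  have small : ∀ a ∈ closedBall (0 : E) 3, ∀ b ∈ closedBall (0 : E) 3,
      seePat (S.biUnion Z) a = seePat (S.biUnion Z) b → ‖a - b‖ < δ := fun a ha b hb e => by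
    by_contra h
    obtain ⟨p, hp, p1, p2⟩ := hW' a ha b hb (not_lt.1 h)
    have : p.2 ∈ seePat (S.biUnion Z) a := see_mem.2 ⟨Finset.mem_biUnion.2 ⟨p.1,
      (mS _).2 (hW p hp).1, by
        rw [hZ]
        exact Finset.mem_union_right _
          (Finset.mem_image_of_mem _ (Finset.mem_filter.2 ⟨hp, rfl⟩))⟩, p1⟩
    rw [e] at this
    linarith [(see_mem.1 this).2]
  have same : ∀ x x', infDist x K < δ → ‖x - x'‖ < δ → seePat (X t0) x' = seePat (X t0) x := by
    intro x x' hx hxx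
    obtain ⟨k, hk, hxk⟩ := (infDist_lt_iff nK).1 hx
    rw [dist_eq_norm] at hxk
    ext b
    rw [see_mem, see_mem]
    refine and_congr_right fun hb => ?_
    have th := see_thick hδ1 (hδ2 b hb) ((mK k).1 hk)
    have e1 := abs_norm_sub_norm_le (b - x) (b - k)
    have e2 := abs_norm_sub_norm_le (b - x') (b - x)
    rw [sub_sub_sub_cancel_left, norm_sub_rev k x] at e1
    rw [sub_sub_sub_cancel_left] at e2
    rw [abs_le] at e1 e2
    rcases le_abs.1 th with h | h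
    · exact iff_of_false (by linarith [e1.1, e2.1]) (by linarith [e1.1])
    · exact iff_of_true (by linarith [e1.2, e2.2]) (by linarith [e1.2])
  obtain ⟨L, hL⟩ : ∃ L : κ → E → ℝ, L = fun t x => ∏ b ∈ Z t, |‖b - x‖ - 1| := ⟨_, rfl⟩
  have cL : ∀ t, Continuous (L t) := fun t => by
    rw [hL]
    exact continuous_finsetProd _ fun b _ => by fun_prop
  have L0 : ∀ t x, 0 ≤ L t x := fun t x => by
    rw [hL]
    exact Finset.prod_nonneg fun b _ => abs_nonneg _
  have pL : ∀ t x, 0 < L t x ↔ ∀ b ∈ Z t, ‖b - x‖ ≠ 1 := fun t x => by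
    rw [(L0 t x).lt_iff_ne', hL]
    simp [Finset.prod_ne_zero_iff, sub_eq_zero]
  obtain ⟨μ, hμ⟩ : ∃ μ : E → ℝ, μ = fun x => S.inf' nS fun t => L t x := ⟨_, rfl⟩
  have cμ : Continuous μ := by
    rw [hμ]
    exact Continuous.finset_inf'_apply nS fun t _ => cL t
  have μ0 : ∀ x, 0 ≤ μ x := fun x => by
    rw [hμ]
    exact Finset.le_inf' nS _ fun t _ => L0 t x
  have μL : ∀ x t, t ≠ t0 → μ x ≤ L t x := fun x t ht => by
    rw [hμ]
    exact Finset.inf'_le (fun t => L t x) ((mS t).2 ht)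
  have μe : ∀ x, ∃ t, t ≠ t0 ∧ μ x = L t x := fun x => by
    obtain ⟨t, ht, e⟩ := Finset.exists_mem_eq_inf' nS fun t => L t x
    exact ⟨t, (mS t).1 ht, by rw [hμ]; exact e⟩
  obtain ⟨G, hG1, hG2⟩ : ∃ G : Finset E → E,
      (∀ x ∈ closedBall (0 : E) 3, ‖G (seePat (S.biUnion Z) x) - x‖ ≤ 2) ∧
      ∀ x ∈ closedBall (0 : E) 3, infDist x K < δ →
        G (seePat (S.biUnion Z) x) = seeCen (seePat (X t0) x) := by
    have : ∀ I : Finset E, ∃ z : E,
        (∀ x ∈ closedBall (0 : E) 3, seePat (S.biUnion Z) x = I → ‖z - x‖ ≤ 2) ∧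
        ∀ x ∈ closedBall (0 : E) 3, seePat (S.biUnion Z) x = I → infDist x K < δ →
          z = seeCen (seePat (X t0) x) := fun I => by
      by_cases h : ∃ y ∈ closedBall (0 : E) 3, seePat (S.biUnion Z) y = I ∧ infDist y K < δ
      · obtain ⟨y, hy, e, hy'⟩ := h
        refine ⟨seeCen (seePat (X t0) y), fun x hx ex => ?_, fun x hx ex _ => ?_⟩
        · have a1 := see_cen (hX' t0 y hy)
          have a2 := small y hy x hx (e.trans ex.symm)
          have a3 := norm_sub_le_norm_sub_add_norm_sub (seeCen (seePat (X t0) y)) y x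
          linarith
        · rw [same y x hy' (small y hy x hx (e.trans ex.symm))]
      · by_cases h' : ∃ y ∈ closedBall (0 : E) 3, seePat (S.biUnion Z) y = I
        · obtain ⟨y, hy, e⟩ := h'
          refine ⟨y, fun x hx ex => ?_, fun x hx ex hx' => (h ⟨x, hx, ex, hx'⟩).elim⟩
          linarith [small y hy x hx (e.trans ex.symm)]
        · exact ⟨0, fun x hx ex => (h' ⟨x, hx, ex⟩).elim, fun x hx ex _ => (h' ⟨x, hx, ex⟩).elim⟩
    choose G a1 a2 using this
    exact ⟨G, fun x hx => a1 _ x hx rfl, fun x hx => a2 _ x hx rfl⟩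
  have cI : Continuous fun x => infDist x K := continuous_infDist_pt K
  obtain ⟨x, -, T, hT, hx⟩ := nerve (κ := κ) (0 : E) 3 2 (by norm_num) (by norm_num)
    (fun j x => if j = t0 then μ x + max 0 (δ - infDist x K) else L j x - μ x)
    (fun j x => if j = t0 then (if infDist x K < δ then seeCen (seePat (X t0) x)
      else G (seePat (S.biUnion Z) x)) else seeCen (seePat (Z j) x))
    (fun j => by
      by_cases e : j = t0
      · simp only [if_pos e]
        exact (cμ.add (continuous_const.max (continuous_const.sub cI))).continuousOn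
      · simp only [if_neg e]
        exact ((cL j).sub cμ).continuousOn)
    (fun j x _ => by
      by_cases e : j = t0
      · simp only [if_pos e]
        exact add_nonneg (μ0 x) (le_max_left _ _)
      · simp only [if_neg e]
        exact sub_nonneg.2 (μL x j e))
    (fun j => by
      by_cases e : j = t0
      · simp only [if_pos e]
        refine ((see_fin (X t0) seeCen).union (see_fin (S.biUnion Z) G)).subset ?_
        rintro _ ⟨x, -, rfl⟩
        by_cases h : infDist x K < δ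
        · exact Or.inl ⟨x, by simp only [if_pos h]⟩
        · exact Or.inr ⟨x, by simp only [if_neg h]⟩
      · simp only [if_neg e]
        exact (see_fin (Z j) seeCen).subset (image_subset_range _ _))
    (fun j x hx h => by
      by_cases e : j = t0
      · simp only [if_pos e] at h ⊢
        by_cases hi : infDist x K < δ
        · have a1 := cI.continuousAt.eventually_lt (continuousAt_const (x := x)) hi
          have a2 : ∀ᶠ x' in 𝓝 x, ‖x - x'‖ < δ :=
            (by fun_prop : Continuous fun x' : E => ‖x - x'‖).continuousAt.eventually_lt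
              continuousAt_const (by simpa using hδ)
          filter_upwards [nhdsWithin_le_nhds a1, nhdsWithin_le_nhds a2] with x' b1 b2
          rw [if_pos b1, if_pos hi, same x x' hi b2]
        · rw [max_eq_left (by linarith [not_lt.1 hi]), add_zero] at h
          have a1 := see_loc (Z := S.biUnion Z) (x := x) fun b hb => by
            obtain ⟨t, ht, hb⟩ := Finset.mem_biUnion.1 hb
            exact (pL t x).1 (h.trans_le (μL x t ((mS t).1 ht))) b hb
          filter_upwards [nhdsWithin_le_nhds a1, self_mem_nhdsWithin] with x' b1 b2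
          rw [if_neg hi]
          by_cases hj : infDist x' K < δ
          · rw [if_pos hj, ← hG2 x' b2 hj, b1]
          · rw [if_neg hj, b1]
      · simp only [if_neg e] at h ⊢
        filter_upwards [nhdsWithin_le_nhds (see_loc ((pL j x).1 (by linarith [μ0 x])))] with x' b1
        rw [b1])
    (fun j x hx h => by
      by_cases e : j = t0
      · simp only [if_pos e]
        by_cases hi : infDist x K < δ
        · rw [if_pos hi]
          linarith [see_cen (hX' t0 x hx)]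
        · rw [if_neg hi]
          exact hG1 x hx
      · simp only [if_neg e]
        linarith [see_cen (zX j x hx)])
    (fun x _ => by
      by_cases h : 0 < μ x
      · exact ⟨t0, by
          simp only [if_true]
          exact add_pos_of_pos_of_nonneg h (le_max_left _ _)⟩
      · obtain ⟨t, ht⟩ := hno' x
        by_cases e : t = t0
        · refine ⟨t0, ?_⟩
          simp only [if_true]
          rw [infDist_zero_of_mem ((mK x).2 (e ▸ ht)), sub_zero]
          exact add_pos_of_nonneg_of_pos (μ0 x) (lt_max_of_lt_right hδ)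
        · refine ⟨t, ?_⟩
          simp only [if_neg e]
          linarith [(pL t x).2 fun b hb => ht b (zD t b hb)])
  obtain ⟨t, ht, e⟩ := μe x
  have := hx t (by rw [Finset.eq_univ_of_card T (hT.trans hκ.symm)]; exact Finset.mem_univ _)
  simp only [if_neg ht] at this
  linarith

end Pool.Agent.Lib.MP_eb34a4_co.DP
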