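import Pool.Agent.Lib.MP_b71113_an.KL.Mir

/-! A proper colouring with `d + 1` colours cannot have all its colour classes dense. -/

namespace Pool.Agent.Lib.MP_eb34a4_co.DP

open Set Metric Filter Topology

/-- Closed covers of a cube with any finite index type. -/
theorem wild_cube {ι : Type} [Fintype ι] {A B : ι → Set (ι → ℝ)} (hA : ∀ i, IsClosed (A i))
    (hB : ∀ i, IsClosed (B i)) (hc : ∀ i x, x ∈ A i ∨ x ∈ B i)
    (h0 : ∀ i, ∀ x ∈ Icc (0 : ι → ℝ) 1, x i = 0 → x ∈ A i)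
    (h1 : ∀ i, ∀ x ∈ Icc (0 : ι → ℝ) 1, x i = 1 → x ∈ B i) : ∃ x, ∀ i, x ∈ A i ∧ x ∈ B i := by
  obtain ⟨e⟩ : Nonempty (ι ≃ Fin (Fintype.card ι)) := ⟨Fintype.equivFin ι⟩
  have cf : Continuous fun (x : Fin (Fintype.card ι) → ℝ) (i : ι) => x (e i) := by fun_prop
  have mf : ∀ x ∈ Icc (0 : Fin (Fintype.card ι) → ℝ) 1,
      (fun i => x (e i)) ∈ Icc (0 : ι → ℝ) 1 := fun x hx => ⟨fun _ => hx.1 _, fun _ => hx.2 _⟩
  obtain ⟨x, -, hx⟩ := Pool.Agent.NapKL.cube_cover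
    (A := fun j => (fun (x : Fin (Fintype.card ι) → ℝ) (i : ι) => x (e i)) ⁻¹' A (e.symm j))
    (B := fun j => (fun (x : Fin (Fintype.card ι) → ℝ) (i : ι) => x (e i)) ⁻¹' B (e.symm j))
    (fun j => (hA _).preimage cf) (fun j => (hB _).preimage cf) (fun j x _ => hc _ _)
    (fun j x hx h => h0 _ _ (mf x hx) (by simpa using h))
    (fun j x hx h => h1 _ _ (mf x hx) (by simpa using h))
  exact ⟨fun i => x (e i), fun i => by simpa using hx (e i)⟩

variable {E : Type} [NormedAddCommGroup E] [NormedSpace ℝ E]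

/-- A lune is not empty. -/
theorem wild_lune {a b : E} (h : a ≠ b) : ∃ x : E, ‖x - a‖ < 1 ∧ 1 < ‖x - b‖ := by
  have D0 : 0 < ‖a - b‖ := norm_pos_iff.2 (sub_ne_zero.2 h)
  obtain ⟨t, t0, t1, t2⟩ : ∃ t : ℝ, 0 ≤ t ∧ t * ‖a - b‖ < 1 ∧ 1 < (t + 1) * ‖a - b‖ := by
    by_cases h2 : 1 < ‖a - b‖
    · exact ⟨0, le_rfl, by simp, by simpa using h2⟩
    · have e : (‖a - b‖⁻¹ - 1 / 2) * ‖a - b‖ = 1 - ‖a - b‖ / 2 := by field_simp
      refine ⟨‖a - b‖⁻¹ - 1 / 2, ?_, by linarith, by linarith⟩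
      have := (one_le_inv₀ D0).2 (not_lt.1 h2)
      linarith
  refine ⟨a + t • (a - b), ?_, ?_⟩
  · rwa [add_sub_cancel_left, norm_smul, Real.norm_of_nonneg t0]
  · have e : a + t • (a - b) - b = (t + 1) • (a - b) := by module
    rwa [e, norm_smul, Real.norm_of_nonneg (by linarith)]

/-- Two disjoint compact sets are separated by a wall made of unit spheres round points of a
dense set. -/
theorem wild_wall {P Q X : Set E} (hP : IsCompact P) (hQ : IsCompact Q)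
    (hd : ∀ a ∈ P, ∀ b ∈ Q, a ≠ b) (hX : Dense X) :
    ∃ A B : Set E, IsClosed A ∧ IsClosed B ∧ (∀ z, z ∈ A ∨ z ∈ B) ∧ P ⊆ A ∧ Q ⊆ B ∧
      ∀ z ∈ A, z ∈ B → ∃ x ∈ X, ‖z - x‖ = 1 := by
  have h1 : ∀ a : P, ∃ I : Finset {x : X // ‖(x : E) - a‖ < 1},
      Q ⊆ ⋃ x ∈ I, (closedBall (x.1 : E) 1)ᶜ := fun a =>
    hQ.elim_finite_subcover (fun x : {x : X // ‖(x : E) - a‖ < 1} => (closedBall (x.1 : E) 1)ᶜ)
      (fun _ => isClosed_closedBall.isOpen_compl) fun b hb => by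
        obtain ⟨x, hx, h, h'⟩ := hX.exists_mem_open
          (U := {x | ‖x - a‖ < 1} ∩ {x | 1 < ‖x - b‖})
          ((isOpen_lt (by fun_prop) continuous_const).inter
            (isOpen_lt continuous_const (by fun_prop))) (wild_lune (hd a a.2 b hb))
        refine mem_iUnion.2 ⟨⟨⟨x, hx⟩, h⟩, fun hb' => ?_⟩
        rw [mem_closedBall, dist_comm, dist_eq_norm] at hb'
        exact absurd h' (not_lt.2 hb')
  choose I hI using h1
  obtain ⟨J, hJ⟩ := hP.elim_finite_subcover (fun a : P => ⋂ x ∈ I a, ball (x.1 : E) 1)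
    (fun a => isOpen_biInter_finset fun _ _ => isOpen_ball) fun a ha =>
      mem_iUnion.2 ⟨⟨a, ha⟩, mem_iInter₂.2 fun x _ => by
        rw [mem_ball, dist_comm, dist_eq_norm]
        exact x.2⟩
  refine ⟨⋃ a ∈ J, ⋂ x ∈ I a, closedBall (x.1 : E) 1, ⋂ a ∈ J, ⋃ x ∈ I a, (ball (x.1 : E) 1)ᶜ,
    isClosed_biUnion_finset fun _ _ => isClosed_biInter fun _ _ => isClosed_closedBall,
    isClosed_biInter fun _ _ => isClosed_biUnion_finset fun _ _ => isOpen_ball.isClosed_compl,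
    fun z => ?_, fun z hz => ?_, fun z hz => ?_, fun z hz hz' => ?_⟩
  · refine or_iff_not_imp_right.2 fun h => ?_
    obtain ⟨a, h⟩ := not_forall.1 fun h' => h (mem_iInter₂.2 h')
    obtain ⟨ha, h⟩ := not_forall.1 h
    refine mem_iUnion₂.2 ⟨a, ha, mem_iInter₂.2 fun x hx => ball_subset_closedBall ?_⟩
    by_contra h'
    exact h (mem_iUnion₂.2 ⟨x, hx, h'⟩)
  · obtain ⟨a, ha, h⟩ := mem_iUnion₂.1 (hJ hz)
    exact mem_iUnion₂.2 ⟨a, ha, mem_iInter₂.2 fun x hx =>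
      ball_subset_closedBall (mem_iInter₂.1 h x hx)⟩
  · refine mem_iInter₂.2 fun a _ => ?_
    obtain ⟨x, hx, h⟩ := mem_iUnion₂.1 (hI a hz)
    exact mem_iUnion₂.2 ⟨x, hx, fun h' => h (ball_subset_closedBall h')⟩
  · obtain ⟨a, ha, h⟩ := mem_iUnion₂.1 hz
    obtain ⟨x, hx, h'⟩ := mem_iUnion₂.1 (mem_iInter₂.1 hz' a ha)
    refine ⟨x.1, x.1.2, ?_⟩
    rw [← dist_eq_norm]
    exact le_antisymm (mem_iInter₂.1 h x hx) (not_lt.1 h')

/-- Short axes transversal to a given direction. -/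
theorem wild_axes [FiniteDimensional ℝ E] {n : ℕ} (hn : Module.finrank ℝ E = n + 1) {e : E}
    (he : e ≠ 0) {ε : ℝ} (ε0 : 0 < ε) :
    ∃ A : (Fin n → ℝ) → E, Continuous A ∧ (∀ τ ∈ Icc (0 : Fin n → ℝ) 1, ‖A τ‖ ≤ ε) ∧
      ∀ (s s' : ℝ) τ τ', s • e + A τ = s' • e + A τ' → τ = τ' := by
  have h1 := Submodule.finrank_quotient_add_finrank (Submodule.span ℝ {e})
  rw [finrank_span_singleton he] at h1
  obtain ⟨φ⟩ : Nonempty ((E ⧸ Submodule.span ℝ {e}) ≃ₗ[ℝ] (Fin n → ℝ)) :=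
    FiniteDimensional.nonempty_linearEquiv_of_finrank_eq (by simp; omega)
  obtain ⟨R, hR⟩ : ∃ R : E →ₗ[ℝ] (Fin n → ℝ), R = φ.toLinearMap ∘ₗ (Submodule.span ℝ {e}).mkQ :=
    ⟨_, rfl⟩
  have Re : R e = 0 := by
    have : (Submodule.span ℝ {e}).mkQ e = 0 :=
      (Submodule.Quotient.mk_eq_zero _).2 (Submodule.mem_span_singleton_self e)
    rw [hR, LinearMap.comp_apply, this, map_zero]
  obtain ⟨A, hA⟩ := R.exists_rightInverse_of_surjective (by
    rw [hR, LinearMap.range_eq_top]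
    exact φ.surjective.comp (Submodule.mkQ_surjective _))
  have RA : ∀ τ, R (A τ) = τ := fun τ => LinearMap.congr_fun hA τ
  obtain ⟨C, C0, hC⟩ := (LinearMap.toContinuousLinearMap A).bound
  have cA : Continuous A := A.continuous_of_finiteDimensional
  refine ⟨fun τ => (ε / C) • A τ, by fun_prop, fun τ hτ => ?_, fun s s' τ τ' h => ?_⟩
  · have e1 : ‖τ‖ ≤ 1 := (pi_norm_le_iff_of_nonneg zero_le_one).2 fun j =>
      abs_le.2 ⟨(by linarith [show (0 : ℝ) ≤ τ j from hτ.1 j] : -1 ≤ τ j), hτ.2 j⟩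
    have e2 : ‖A τ‖ ≤ C * ‖τ‖ := hC τ
    rw [norm_smul, Real.norm_of_nonneg (by positivity), div_mul_eq_mul_div, div_le_iff₀ C0]
    exact mul_le_mul_of_nonneg_left (by nlinarith) ε0.le
  · have e1 := congrArg R h
    simp only [map_add, map_smul, Re, RA, smul_zero, zero_add] at e1
    exact smul_right_injective _ (by positivity) e1

/-- The norm along a side of an equilateral triangle. -/
theorem wild_est {u v : E} {κ l s : ℝ} (hu : ‖u‖ = 1) (h1 : ‖u + v‖ = 1) (h2 : ‖u - v‖ ≤ 1 + κ)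
    (_κ0 : 0 ≤ κ) (hs : |s| ≤ l) :
    l - κ * |s| ≤ ‖l • u + s • v‖ ∧ ‖l • u + s • v‖ ≤ l + κ * |s| := by
  have l0 : 0 ≤ l := (abs_nonneg s).trans hs
  have key : ∀ (t : ℝ) (x : E), 0 ≤ t → t ≤ l →
      l + t - t * ‖u - x‖ ≤ ‖l • u + t • x‖ ∧ ‖l • u + t • x‖ ≤ l - t + t * ‖u + x‖ :=
    fun t x t0 tl => by
      have e1 := norm_add_le (l • u + t • x) (t • (u - x))
      have e2 := norm_add_le ((l - t) • u) (t • (u + x))
      rw [show l • u + t • x + t • (u - x) = (l + t) • u by module, norm_smul, norm_smul, hu,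
        Real.norm_of_nonneg t0, Real.norm_of_nonneg (by linarith)] at e1
      rw [show (l - t) • u + t • (u + x) = l • u + t • x by module, norm_smul, norm_smul, hu,
        Real.norm_of_nonneg t0, Real.norm_of_nonneg (by linarith)] at e2
      exact ⟨by linarith, by linarith⟩
  rcases le_total 0 s with s0 | s0
  · rw [abs_of_nonneg s0] at hs ⊢
    obtain ⟨e1, e2⟩ := key s v s0 hs
    rw [h1] at e2
    exact ⟨by nlinarith, by nlinarith⟩
  · rw [abs_of_nonpos s0] at hs ⊢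
    obtain ⟨e1, e2⟩ := key (-s) (-v) (by linarith) hs
    rw [smul_neg, neg_smul, neg_neg] at e1 e2
    rw [sub_neg_eq_add, h1] at e1
    rw [← sub_eq_add_neg] at e2
    exact ⟨by nlinarith, by nlinarith⟩

/-- An equilateral triangle with two sides that are not on a common face up to sign. -/
theorem wild_tri [FiniteDimensional ℝ E] (hd : 2 ≤ Module.finrank ℝ E) :
    ∃ u v w : E, ‖u‖ = 1 ∧ ‖v‖ = 1 ∧ ‖w‖ = 1 ∧ u + v + w = 0 ∧ ‖u - v‖ < 2 := by
  have hr : 1 < Module.rank ℝ E := by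
    rw [← Module.finrank_eq_rank]
    exact_mod_cast hd
  have : Nontrivial E := Module.nontrivial_of_finrank_pos (R := ℝ) (by omega)
  obtain ⟨u, hu⟩ := exists_norm_eq E zero_le_one
  obtain ⟨v, hv, hv'⟩ := (isConnected_sphere hr (0 : E) zero_le_one).isPreconnected.intermediate_value
    (a := -u) (b := u) (by simpa using hu) (by simpa using hu) (f := fun x => ‖u + x‖)
    (by fun_prop) (show (1 : ℝ) ∈ Icc _ _ from ⟨by simp, by
      simp only [← two_smul ℝ u, norm_smul, hu]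
      norm_num⟩)
  have hv1 : ‖v‖ = 1 := by simpa using hv
  obtain ⟨w, hw, hs⟩ : ∃ w : E, ‖w‖ = 1 ∧ u + v + w = 0 :=
    ⟨-(u + v), by rw [norm_neg]; exact hv', by abel⟩
  by_cases h1 : ‖u - v‖ < 2
  · exact ⟨u, v, w, hu, hv1, hw, hs, h1⟩
  by_cases h2 : ‖v - w‖ < 2
  · exact ⟨v, w, u, hv1, hw, hu, by rw [← hs]; abel, h2⟩
  by_cases h3 : ‖w - u‖ < 2
  · exact ⟨w, u, v, hw, hu, hv1, by rw [← hs]; abel, h3⟩
  have key : ∀ x y : E, ‖x‖ = 1 → ‖y‖ = 1 → ¬‖x - y‖ < 2 → ‖(1 / 2 : ℝ) • (x - y)‖ = 1 :=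
    fun x y hx hy h => by
      have := norm_sub_le x y
      rw [norm_smul, Real.norm_of_nonneg (by norm_num)]
      linarith [not_lt.1 h]
  refine ⟨_, _, _, key u v hu hv1 h1, key v w hv1 hw h2, key w u hw hu h3, by module, ?_⟩
  have e : (1 / 2 : ℝ) • (u - v) - (1 / 2 : ℝ) • (v - w) =
      (1 / 2 : ℝ) • (u + v + w) - (3 / 2 : ℝ) • v := by module
  rw [e, hs, smul_zero, zero_sub, norm_neg, norm_smul, hv1, Real.norm_of_nonneg (by norm_num)]
  norm_num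

/-- A unit triangle each of whose vertices is at distance one from each of `d - 1` dense sets. -/
theorem wild_core [FiniteDimensional ℝ E] {n : ℕ} (hn : Module.finrank ℝ E = n + 1)
    (X : Fin n → Set E) (hX : ∀ j, Dense (X j)) (e p : Fin 3 → E) (κ r : Fin 3 → ℝ) {ε : ℝ}
    (ε0 : 0 < ε) (hp : ∀ l, p (l + 1) = p l + e l) (he : ∀ l, ‖e l‖ = 1)
    (h1 : ∀ l, ‖e l + e (l + 1)‖ = 1) (h2 : ∀ l, ‖e l - e (l + 1)‖ ≤ 1 + κ l)
    (κ0 : ∀ l, 0 ≤ κ l) (r0 : ∀ l, 0 ≤ r l) (r1 : ∀ l, r l ≤ 1 / 2)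
    (hr : ∀ l, κ l * r (l + 1) + 2 * ε ≤ r l) :
    ∃ z : Fin 3 → E, (∀ l, ‖z (l + 1) - z l‖ = 1) ∧ ∀ l j, ∃ x ∈ X j, ‖z l - x‖ = 1 := by
  have hA := fun l => wild_axes hn (e := e l) (norm_pos_iff.1 (by rw [he]; exact one_pos)) ε0
  choose A cA bA iA using hA
  obtain ⟨z, hz⟩ : ∃ z : Fin 3 → (Fin 3 × Option (Fin n) → ℝ) → E, z = fun l σ =>
      p l + (((2 * σ (l, none) - 1) * r l) • e l + A l fun j => σ (l, some j)) := ⟨_, rfl⟩
  have cz : ∀ l, Continuous (z l) := fun l => by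
    rw [hz]
    have := cA l
    fun_prop
  have cF : ∀ l i (t : ℝ), IsCompact (z l '' (Icc 0 1 ∩ {σ | σ i = t})) := fun l i t =>
    (isCompact_Icc.inter_right (isClosed_eq (continuous_apply i) continuous_const)).image (cz l)
  have hW := fun l j => wild_wall (cF l (l, some j) 0) (cF l (l, some j) 1) (by
    rintro _ ⟨a, ha, rfl⟩ _ ⟨b, hb, rfl⟩ h
    rw [hz] at h
    have e1 : a (l, some j) = b (l, some j) := congrFun (iA l _ _ _ _ (add_left_cancel h)) j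
    rw [ha.2, hb.2] at e1
    exact zero_ne_one e1) (hX j)
  choose P Q cP cQ uPQ sP sQ wPQ using hW
  have est : ∀ l, ∀ σ ∈ Icc (0 : Fin 3 × Option (Fin n) → ℝ) 1, ∀ t : ℝ,
      (2 * σ (l, none) - 1) * r l = t → |t| ≤ 1 / 2 →
      1 - t - r l ≤ ‖z (l + 1) σ - z l σ‖ ∧ ‖z (l + 1) σ - z l σ‖ ≤ 1 - t + r l :=
    fun l σ hσ t ht ht' => by
      obtain ⟨s, hs⟩ : ∃ s, s = (2 * σ (l + 1, none) - 1) * r (l + 1) := ⟨_, rfl⟩
      have s1 : |s| ≤ r (l + 1) := by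
        have a0 : (0 : ℝ) ≤ σ (l + 1, none) := hσ.1 _
        have a1 : σ (l + 1, none) ≤ (1 : ℝ) := hσ.2 _
        have := r0 (l + 1)
        rw [hs]
        exact abs_le.2 ⟨by nlinarith, by nlinarith⟩
      obtain ⟨e1, e2⟩ := wild_est (l := 1 - t) (s := s) (he l) (h1 l) (h2 l) (κ0 l)
        (by linarith [r1 (l + 1), (abs_le.1 ht').2])
      have b1 := bA l (fun j => σ (l, some j)) ⟨fun _ => hσ.1 _, fun _ => hσ.2 _⟩
      have b2 := bA (l + 1) (fun j => σ (l + 1, some j)) ⟨fun _ => hσ.1 _, fun _ => hσ.2 _⟩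
      have b3 := (norm_sub_le _ _).trans (add_le_add b2 b1)
      have e3 : z (l + 1) σ - z l σ = ((1 - t) • e l + s • e (l + 1)) +
          ((A (l + 1) fun j => σ (l + 1, some j)) - A l fun j => σ (l, some j)) := by
        simp only [hz, hp, ht, ← hs]
        module
      have e4 := norm_add_le ((1 - t) • e l + s • e (l + 1))
        ((A (l + 1) fun j => σ (l + 1, some j)) - A l fun j => σ (l, some j))
      have e5 := norm_sub_le (z (l + 1) σ - z l σ)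
        ((A (l + 1) fun j => σ (l + 1, some j)) - A l fun j => σ (l, some j))
      rw [← e3] at e4
      rw [e3, add_sub_cancel_right, ← e3] at e5
      have e6 := mul_le_mul_of_nonneg_left s1 (κ0 l)
      have := hr l
      exact ⟨by linarith, by linarith⟩
  have cd : ∀ l, Continuous fun σ => ‖z (l + 1) σ - z l σ‖ := fun l => ((cz _).sub (cz _)).norm
  obtain ⟨σ, hσ⟩ := wild_cube (ι := Fin 3 × Option (Fin n))
    (A := fun i => i.2.elim {σ | 1 ≤ ‖z (i.1 + 1) σ - z i.1 σ‖} fun j => z i.1 ⁻¹' P i.1 j)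
    (B := fun i => i.2.elim {σ | ‖z (i.1 + 1) σ - z i.1 σ‖ ≤ 1} fun j => z i.1 ⁻¹' Q i.1 j)
    (fun
      | (l, none) => isClosed_le continuous_const (cd l)
      | (l, some j) => (cP l j).preimage (cz l))
    (fun
      | (l, none) => isClosed_le (cd l) continuous_const
      | (l, some j) => (cQ l j).preimage (cz l))
    (fun
      | (l, none), _ => le_total (1 : ℝ) _
      | (l, some j), _ => uPQ l j _)
    (fun
      | (l, none), σ, hσ, h => by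
        have := (est l σ hσ (-r l) (by rw [h]; ring)
          (by rw [abs_neg, abs_of_nonneg (r0 l)]; exact r1 l)).1
        exact (by linarith : 1 ≤ ‖z (l + 1) σ - z l σ‖)
      | (l, some j), σ, hσ, h => sP l j ⟨σ, ⟨hσ, h⟩, rfl⟩)
    (fun
      | (l, none), σ, hσ, h => by
        have := (est l σ hσ (r l) (by rw [h]; ring)
          (by rw [abs_of_nonneg (r0 l)]; exact r1 l)).2
        exact (by linarith : ‖z (l + 1) σ - z l σ‖ ≤ 1)
      | (l, some j), σ, hσ, h => sQ l j ⟨σ, ⟨hσ, h⟩, rfl⟩)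
  exact ⟨fun l => z l σ, fun l => le_antisymm (hσ (l, none)).2 (hσ (l, none)).1,
    fun l j => wPQ l j _ (hσ (l, some j)).1 (hσ (l, some j)).2⟩

/-- With `d + 1` colours the colour classes are not all dense. -/
theorem wild [FiniteDimensional ℝ E] {K : Type} [Fintype K]
    (hK : Fintype.card K = Module.finrank ℝ E + 1) (hd : 2 ≤ Module.finrank ℝ E) (c : E → K)
    (hc : ∀ x y : E, ‖x - y‖ = 1 → c x ≠ c y) (hD : ∀ t, Dense (c ⁻¹' {t})) : False := by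
  obtain ⟨n, hn⟩ : ∃ n, Module.finrank ℝ E = n + 1 := ⟨Module.finrank ℝ E - 1, by omega⟩
  obtain ⟨u, v, w, hu, hv, hw, hs, huv⟩ := wild_tri hd
  obtain ⟨κ, hκ⟩ : ∃ κ, κ = ‖u - v‖ - 1 := ⟨_, rfl⟩
  have s1 : ‖u + v‖ = 1 := by rw [eq_neg_of_add_eq_zero_left hs, norm_neg, hw]
  have s2 : ‖v + w‖ = 1 := by
    rw [eq_neg_of_add_eq_zero_left (show v + w + u = 0 by rw [← hs]; abel), norm_neg, hu]
  have s3 : ‖w + u‖ = 1 := by
    rw [eq_neg_of_add_eq_zero_left (show w + u + v = 0 by rw [← hs]; abel), norm_neg, hv]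
  have κ0 : 0 ≤ κ := by
    have := norm_add_le (u + v) (u - v)
    rw [show u + v + (u - v) = (2 : ℝ) • u by module, norm_smul, hu, s1] at this
    norm_num at this
    linarith
  have d2 := norm_sub_le v w
  have d3 := norm_sub_le w u
  obtain ⟨f⟩ : Nonempty (K ≃ Fin (Fintype.card K)) := ⟨Fintype.equivFin K⟩
  obtain ⟨col, hcol⟩ : ∃ col : Fin n → K, ∀ t, (f t : ℕ) < 2 ∨ ∃ j, col j = t :=
    ⟨fun j => if h : (j : ℕ) + 2 < Fintype.card K then f.symm ⟨j + 2, h⟩ else c 0, fun t => by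
      refine or_iff_not_imp_left.2 fun h => ⟨⟨f t - 2, by have := (f t).2; omega⟩, ?_⟩
      have e : (f t : ℕ) - 2 + 2 = f t := by omega
      simp [e]⟩
  obtain ⟨z, hz, hx⟩ := wild_core hn (fun j => c ⁻¹' {col j}) (fun j => hD _) ![u, v, w]
    ![0, u, u + v] ![κ, 1, 1] ![κ / 2 + (1 - κ) / 6, 1 / 2, κ / 2 + (1 - κ) / 3]
    (ε := (1 - κ) / 12) (by linarith)
    (Fin.forall_fin_succ.2 ⟨by simp, Fin.forall_fin_two.2 ⟨by simp, by simpa using hs.symm⟩⟩)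
    (Fin.forall_fin_succ.2 ⟨hu, Fin.forall_fin_two.2 ⟨hv, hw⟩⟩)
    (Fin.forall_fin_succ.2 ⟨s1, Fin.forall_fin_two.2 ⟨s2, s3⟩⟩)
    (Fin.forall_fin_succ.2 ⟨(by linarith : ‖u - v‖ ≤ 1 + κ), Fin.forall_fin_two.2
      ⟨(by linarith : ‖v - w‖ ≤ 1 + 1), (by linarith : ‖w - u‖ ≤ 1 + 1)⟩⟩)
    (Fin.forall_fin_succ.2 ⟨κ0, Fin.forall_fin_two.2 ⟨zero_le_one, zero_le_one⟩⟩)
    (Fin.forall_fin_succ.2 ⟨(by linarith : 0 ≤ κ / 2 + (1 - κ) / 6), Fin.forall_fin_two.2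
      ⟨(by norm_num : (0 : ℝ) ≤ 1 / 2), (by linarith : 0 ≤ κ / 2 + (1 - κ) / 3)⟩⟩)
    (Fin.forall_fin_succ.2 ⟨(by linarith : κ / 2 + (1 - κ) / 6 ≤ 1 / 2), Fin.forall_fin_two.2
      ⟨le_rfl, (by linarith : κ / 2 + (1 - κ) / 3 ≤ 1 / 2)⟩⟩)
    (Fin.forall_fin_succ.2
      ⟨(by linarith : κ * (1 / 2) + 2 * ((1 - κ) / 12) ≤ κ / 2 + (1 - κ) / 6),
        Fin.forall_fin_two.2
        ⟨(by linarith : 1 * (κ / 2 + (1 - κ) / 3) + 2 * ((1 - κ) / 12) ≤ 1 / 2),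
          (by linarith : 1 * (κ / 2 + (1 - κ) / 6) + 2 * ((1 - κ) / 12) ≤
            κ / 2 + (1 - κ) / 3)⟩⟩)
  have lt : ∀ l, (f (c (z l)) : ℕ) < 2 := fun l => (hcol _).resolve_right fun ⟨j, hj⟩ => by
    obtain ⟨x, h, h'⟩ := hx l j
    exact hc _ _ h' (hj.symm.trans (Eq.symm h))
  have ne : ∀ l, (f (c (z (l + 1))) : ℕ) ≠ f (c (z l)) := fun l h =>
    hc _ _ (hz l) (f.injective (Fin.ext h))
  have a0 : (f (c (z 1)) : ℕ) ≠ f (c (z 0)) := ne 0
  have a1 : (f (c (z 2)) : ℕ) ≠ f (c (z 1)) := ne 1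
  have a2 : (f (c (z 0)) : ℕ) ≠ f (c (z 2)) := ne 2
  have := lt 0
  have := lt 1
  have := lt 2
  omega

end Pool.Agent.Lib.MP_eb34a4_co.DP
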