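import Pool.Agent.Lib.MP_eb34a4_co.DP.Ball
import Pool.Agent.Lib.MP_eb34a4_co.DP.Lune
import Pool.Agent.Lib.MP_eb34a4_co.DP.See
import Pool.Agent.Lib.MP_eb34a4_co.DP.Dense
import Pool.Agent.Lib.MP_eb34a4_co.DP.Wild

/-! The unit distance graph of a normed space of dimension `d ≥ 2` needs `d + 2` colours. -/

namespace Pool.Agent.Lib.MP_eb34a4_co.DP

open Set Metric Filter Topology Module

variable {E : Type} [NormedAddCommGroup E] [NormedSpace ℝ E] [FiniteDimensional ℝ E]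

theorem main (hd : 2 ≤ finrank ℝ E) (k : ℕ) (c : E → Fin k)
    (hc : ∀ x y : E, ‖x - y‖ = 1 → c x ≠ c y) : finrank ℝ E + 2 ≤ k := by
  by_contra hk
  have hk' : k ≤ finrank ℝ E + 1 := by omega
  have hc' : ∀ x y : E, ‖x - y‖ = 1 → Fin.castLE hk' (c x) ≠ Fin.castLE hk' (c y) :=
    fun x y h e => hc x y h (Fin.castLE_injective hk' e)
  have hκ : Fintype.card (Fin (finrank ℝ E + 1)) = finrank ℝ E + 1 := Fintype.card_fin _
  have h2 := lune hκ (fun x => Fin.castLE hk' (c x)) hc'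
  exact wild hκ hd _ hc' (all_dense hκ hd _ hc' h2
    (see hκ hd _ (fun _ => isOpen_interior) (ball_meets hκ _ hc') h2))

end Pool.Agent.Lib.MP_eb34a4_co.DP
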