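import Pool.Agent.Lib.MP_b71113_an.KL.Mir

/-! The theorem of Poincare and Miranda and two surjectivity statements. -/

namespace Pool.Agent.Lib.MP_eb34a4_co.DP

open Set Metric Filter Topology Module

theorem miranda {ι : Type} [Fintype ι] (f : ι → (ι → ℝ) → ℝ) (hf : ∀ i, Continuous (f i))
    (h0 : ∀ i x, (∀ j, |x j| ≤ 1) → x i = -1 → f i x ≤ 0)
    (h1 : ∀ i x, (∀ j, |x j| ≤ 1) → x i = 1 → 0 ≤ f i x) :
    ∃ x : ι → ℝ, (∀ j, |x j| ≤ 1) ∧ ∀ i, f i x = 0 := by
  let e := Fintype.equivFin ι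
  let φ : (Fin (Fintype.card ι) → ℝ) → ι → ℝ := fun p j => 2 * p (e j) - 1
  have hφ : Continuous φ := continuous_pi fun j =>
    (continuous_const.mul (continuous_apply (e j))).sub continuous_const
  have hb : ∀ p ∈ Icc (0 : Fin (Fintype.card ι) → ℝ) 1, ∀ j, |φ p j| ≤ 1 := fun p hp j => by
    have a1 : (0 : ℝ) ≤ p (e j) := hp.1 (e j)
    have a2 : p (e j) ≤ (1 : ℝ) := hp.2 (e j)
    exact abs_le.2 ⟨by simp only [φ]; linarith, by simp only [φ]; linarith⟩
  obtain ⟨p, hp, h⟩ := Pool.Agent.NapKL.cube_cover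
    (A := fun i => {p | f (e.symm i) (φ p) ≤ 0}) (B := fun i => {p | 0 ≤ f (e.symm i) (φ p)})
    (fun i => isClosed_le ((hf _).comp hφ) continuous_const)
    (fun i => isClosed_le continuous_const ((hf _).comp hφ))
    (fun i p _ => le_total (f (e.symm i) (φ p)) 0)
    (fun i p hp h => h0 _ _ (hb p hp) (by simp only [φ, Equiv.apply_symm_apply, h]; norm_num))
    (fun i p hp h => h1 _ _ (hb p hp) (by simp only [φ, Equiv.apply_symm_apply, h]; norm_num))
  refine ⟨φ p, hb p hp, fun i => ?_⟩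
  have := h (e i)
  simp only [Equiv.symm_apply_apply, mem_ofPred_eq] at this
  exact le_antisymm this.1 this.2

variable {E : Type} [NormedAddCommGroup E] [NormedSpace ℝ E] [FiniteDimensional ℝ E]

theorem surj (F : E → E) (hF : Continuous F) (C : ℝ) (hC : ∀ x, ‖F x - x‖ ≤ C) :
    Function.Surjective F := by
  intro τ
  let T : E ≃L[ℝ] (Fin (finrank ℝ E) → ℝ) := ContinuousLinearEquiv.ofFinrankEq (by simp)
  obtain ⟨M, hM0, hM⟩ : ∃ M : ℝ, 0 ≤ M ∧ ∀ u i, |T (F u - u - τ) i| ≤ M := by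
    have hC0 : 0 ≤ C := (norm_nonneg _).trans (hC 0)
    refine ⟨‖(T : E →L[ℝ] Fin (finrank ℝ E) → ℝ)‖ * (C + ‖τ‖), by positivity, fun u i => ?_⟩
    refine (norm_le_pi_norm (T (F u - u - τ)) i).trans
      (((T : E →L[ℝ] Fin (finrank ℝ E) → ℝ).le_opNorm _).trans ?_)
    exact mul_le_mul_of_nonneg_left ((norm_sub_le _ _).trans (by linarith [hC u])) (norm_nonneg _)
  have key : ∀ (x : Fin (finrank ℝ E) → ℝ) i, T (F (T.symm (M • x)) - τ) i =
      T (F (T.symm (M • x)) - T.symm (M • x) - τ) i + M * x i := fun x i => by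
    simp only [map_sub, ContinuousLinearEquiv.apply_symm_apply, Pi.sub_apply, Pi.smul_apply,
      smul_eq_mul]
    ring
  obtain ⟨x, -, hx⟩ := miranda (fun i x => T (F (T.symm (M • x)) - τ) i)
    (fun i => (continuous_apply i).comp (T.continuous.comp
      ((hF.comp (T.symm.continuous.comp (continuous_const_smul M))).sub continuous_const)))
    (fun i x _ h => by rw [key, h]; linarith [(abs_le.1 (hM (T.symm (M • x)) i)).2])
    (fun i x _ h => by rw [key, h]; linarith [(abs_le.1 (hM (T.symm (M • x)) i)).1])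
  exact ⟨T.symm (M • x), sub_eq_zero.1 (T.injective ((funext hx).trans (map_zero T).symm))⟩

theorem surjB (y : E) (ρ r : ℝ) (f : E → E) (hf : ContinuousOn f (closedBall y ρ))
    (hr : ∀ x ∈ closedBall y ρ, ‖f x - x‖ ≤ r) (h0 : 0 ≤ r) (τ : E) (hτ : ‖τ - y‖ + r < ρ) :
    ∃ x ∈ closedBall y ρ, f x = τ := by
  have hρ : 0 < ρ := by linarith [norm_nonneg (τ - y)]
  have hm : ∀ x : E, 0 < max ρ ‖x - y‖ := fun x => hρ.trans_le (le_max_left _ _)
  let q : E → E := fun x => y + (ρ / max ρ ‖x - y‖) • (x - y)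
  have hq : Continuous q := continuous_const.add ((continuous_const.div
    (continuous_const.max (continuous_id.sub continuous_const).norm) fun x => (hm x).ne').smul
      (continuous_id.sub continuous_const))
  have hb : ∀ x, q x ∈ closedBall y ρ := fun x => by
    rw [mem_closedBall, dist_eq_norm]
    simp only [q, add_sub_cancel_left]
    rw [norm_smul, Real.norm_of_nonneg (div_pos hρ (hm x)).le, div_mul_eq_mul_div,
      div_le_iff₀ (hm x)]
    exact mul_le_mul_of_nonneg_left (le_max_right _ _) hρ.le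
  have hn : ∀ x, ‖f (q x) + (x - q x) - x‖ ≤ r := fun x => by
    rw [show f (q x) + (x - q x) - x = f (q x) - q x by abel]
    exact hr _ (hb x)
  obtain ⟨x, hx⟩ := surj (fun x => f (q x) + (x - q x))
    ((hf.comp_continuous hq hb).add (continuous_id.sub hq)) r hn τ
  have hx' : f (q x) + (x - q x) = τ := hx
  have h1 : ‖x - y‖ ≤ ρ := by
    have h2 := hn x
    rw [hx', norm_sub_rev] at h2
    linarith [norm_sub_le_norm_sub_add_norm_sub x τ y]
  have h3 : q x = x := by
    simp only [q]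
    rw [max_eq_left h1, div_self hρ.ne', one_smul, add_sub_cancel]
  refine ⟨x, h3 ▸ hb x, ?_⟩
  rwa [h3, sub_self, add_zero] at hx'

end Pool.Agent.Lib.MP_eb34a4_co.DP
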