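import Pool.Agent.Lib.MP_eb34a4_co.DP.Mir

/-! The nerve map of a family of weights with locally constant centres. -/

namespace Pool.Agent.Lib.MP_eb34a4_co.DP

open Set Metric Filter Topology Module

variable {E : Type} [NormedAddCommGroup E] [NormedSpace ℝ E] [FiniteDimensional ℝ E]

omit [FiniteDimensional ℝ E] in
theorem nerve_mem {κ : Type} [Fintype κ] {w : κ → ℝ} {z : κ → E} {C : Set E} (hC : Convex ℝ C)
    (h0 : ∀ j, 0 ≤ w j) (h1 : 0 < ∑ j, w j) (h2 : ∀ j, 0 < w j → z j ∈ C) :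
    (∑ j, w j)⁻¹ • ∑ j, w j • z j ∈ C := by
  classical
  have e1 : ∑ j ∈ Finset.univ.filter fun j => 0 < w j, w j = ∑ j, w j :=
    Finset.sum_filter_of_ne fun j _ h => (h0 j).lt_of_ne' h
  have e2 : ∑ j ∈ Finset.univ.filter fun j => 0 < w j, w j • z j = ∑ j, w j • z j :=
    Finset.sum_filter_of_ne fun j _ h => (h0 j).lt_of_ne' fun e => h (by rw [e, zero_smul])
  rw [← e1, ← e2]
  exact hC.centerMass_mem (fun j _ => h0 j) (e1 ▸ h1) fun j hj => h2 j (Finset.mem_filter.1 hj).2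

theorem nerve_span {s : Finset E} (hs : s.card ≤ finrank ℝ E) : affineSpan ℝ (s : Set E) ≠ ⊤ := by
  classical
  intro h
  rcases s.eq_empty_or_nonempty with rfl | hne
  · exact AffineSubspace.bot_ne_top ℝ E E (by simpa using h)
  obtain ⟨n, hn⟩ := Nat.exists_eq_succ_of_ne_zero hne.card_pos.ne'
  have h1 := finrank_vectorSpan_image_finset_le ℝ (id : E → E) s hn
  rw [Finset.image_id, AffineSubspace.vectorSpan_eq_top_of_affineSpan_eq_top ℝ E E h,
    finrank_top] at h1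
  omega

theorem nerve_avoid {G : Set E} (hG : G.Finite) (y : E) {δ : ℝ} (hδ : 0 < δ) :
    ∃ τ ∈ ball y δ, ∀ s : Finset E, ↑s ⊆ G → s.card ≤ finrank ℝ E →
      τ ∉ affineSpan ℝ (s : Set E) := by
  borelize E
  by_contra h
  have h1 : ball y δ ⊆ ⋃ s ∈ {s : Finset E | ↑s ⊆ G ∧ s.card ≤ finrank ℝ E},
      (affineSpan ℝ (s : Set E) : Set E) := fun τ hτ => by
    by_contra h2
    exact h ⟨τ, hτ, fun s a b c => h2 (mem_biUnion (⟨a, b⟩ : s ∈ {s : Finset E | _ ∧ _}) c)⟩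
  have h2 : {s : Finset E | ↑s ⊆ G ∧ s.card ≤ finrank ℝ E}.Countable :=
    ((hG.finite_subsets.preimage Finset.coe_injective.injOn).subset fun s hs => hs.1).countable
  exact (measure_ball_pos (finBasis ℝ E).addHaar y hδ).ne' (MeasureTheory.measure_mono_null h1
    ((MeasureTheory.measure_biUnion_null_iff h2).2 fun s hs =>
      MeasureTheory.Measure.addHaar_affineSubspace _ _ (nerve_span hs.2)))

theorem nerve {κ : Type} [Fintype κ] (y : E) (ρ r : ℝ) (h0 : 0 ≤ r) (hr : r < ρ)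
    (L : κ → E → ℝ) (g : κ → E → E)
    (hL : ∀ j, ContinuousOn (L j) (closedBall y ρ))
    (hL0 : ∀ j, ∀ x ∈ closedBall y ρ, 0 ≤ L j x)
    (hfin : ∀ j, (g j '' closedBall y ρ).Finite)
    (hloc : ∀ j, ∀ x ∈ closedBall y ρ, 0 < L j x →
      ∀ᶠ x' in 𝓝[closedBall y ρ] x, g j x' = g j x)
    (hd : ∀ j, ∀ x ∈ closedBall y ρ, 0 < L j x → ‖g j x - x‖ ≤ r)
    (hpos : ∀ x ∈ closedBall y ρ, ∃ j, 0 < L j x) :
    ∃ x ∈ closedBall y ρ, ∃ T : Finset κ, T.card = finrank ℝ E + 1 ∧ ∀ j ∈ T, 0 < L j x := by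
  classical
  have hS : ∀ x ∈ closedBall y ρ, 0 < ∑ j, L j x := fun x hx =>
    let ⟨j, hj⟩ := hpos x hx
    Finset.sum_pos' (fun i _ => hL0 i x hx) ⟨j, Finset.mem_univ j, hj⟩
  have hc : ∀ j, ContinuousOn (fun x => L j x • g j x) (closedBall y ρ) := fun j x hx => by
    rcases (hL0 j x hx).eq_or_lt with e | e
    · obtain ⟨C, hC⟩ := (hfin j).isBounded.exists_norm_le
      have h1 : Tendsto (L j) (𝓝[closedBall y ρ] x) (𝓝 0) := e ▸ hL j x hx
      have h2 := h1.zero_smul_isBoundedUnder_le (g := g j) (isBoundedUnder_of_eventually_le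
        (eventually_nhdsWithin_of_forall fun z hz => hC _ ⟨z, hz, rfl⟩))
      rwa [ContinuousWithinAt, ← e, zero_smul]
    · exact ((hL j x hx).smul (continuousWithinAt_const (b := g j x))).congr_of_eventuallyEq
        ((hloc j x hx e).mono fun z hz => congrArg (L j z • ·) hz) rfl
  obtain ⟨τ, t1, t2⟩ := nerve_avoid (finite_iUnion hfin) y (sub_pos.2 hr)
  obtain ⟨x, hx, e⟩ := surjB y ρ r (fun x => (∑ j, L j x)⁻¹ • ∑ j, L j x • g j x)
    (((continuousOn_finsetSum _ fun j _ => hL j).inv₀ fun x hx => (hS x hx).ne').smul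
      (continuousOn_finsetSum _ fun j _ => hc j))
    (fun x hx => mem_closedBall_iff_norm.1 (nerve_mem (convex_closedBall x r)
      (fun j => hL0 j x hx) (hS x hx) fun j hj => mem_closedBall_iff_norm.2 (hd j x hx hj))) h0 τ
    (lt_sub_iff_add_lt.1 (mem_ball_iff_norm.1 t1))
  by_cases h : finrank ℝ E + 1 ≤ (Finset.univ.filter fun j => 0 < L j x).card
  · obtain ⟨T, a, b⟩ := Finset.exists_subset_card_eq h
    exact ⟨x, hx, T, b, fun j hj => (Finset.mem_filter.1 (a hj)).2⟩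
  refine (t2 ((Finset.univ.filter fun j => 0 < L j x).image fun j => g j x) (fun z hz => ?_)
    (Finset.card_image_le.trans (by omega)) (e ▸ nerve_mem (AffineSubspace.convex _)
      (fun j => hL0 j x hx) (hS x hx) fun j hj => subset_affineSpan ℝ _ ?_)).elim
  · obtain ⟨j, -, rfl⟩ := Finset.mem_image.1 hz
    exact mem_iUnion.2 ⟨j, x, hx, rfl⟩
  · exact Finset.mem_coe.2 (Finset.mem_image_of_mem _ (Finset.mem_filter.2 ⟨Finset.mem_univ j, hj⟩))

end Pool.Agent.Lib.MP_eb34a4_co.DP
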